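import Mathlib

/-!
# Extension of a character of a subalgebra to an integral algebra
-/

set_option autoImplicit false

noncomputable section

namespace Pool.Agent.T2h62.CG

/-- extension of a homomorphism into an algebraically closed field along an injective integral
extension -/
theorem exists_ext {B A k : Type*} [CommRing B] [CommRing A] [Algebra B A] [Algebra.IsIntegral B A]
    [Field k] [IsAlgClosed k] (hi : Function.Injective (algebraMap B A)) (l : B →+* k) :
    ∃ ψ : A →+* k, ∀ b, ψ (algebraMap B A b) = l b := by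
  have hP : (RingHom.ker l).IsPrime := RingHom.ker_isPrime l
  obtain ⟨Q, -, hQ, hQP⟩ := Ideal.exists_ideal_over_prime_of_isIntegral (RingHom.ker l)
    (⊥ : Ideal A) (by
      rw [← RingHom.ker_eq_comap_bot, (RingHom.injective_iff_ker_eq_bot _).1 hi]
      exact bot_le)
  let B' := B ⧸ RingHom.ker l
  let A' := A ⧸ Q
  let _ : Q.LiesOver (RingHom.ker l) := ⟨hQP.symm⟩
  let a1 : Algebra B' A' := Ideal.Quotient.algebraOfLiesOver Q (RingHom.ker l)
  let l' : B' →+* k := RingHom.kerLift l
  let a2 : Algebra B' k := l'.toAlgebra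
  have i1 : Function.Injective (algebraMap B' k) := RingHom.kerLift_injective l
  have : FaithfulSMul B' A' := Ideal.Quotient.instFaithfulSMul Q (RingHom.ker l)
  have i2 : Function.Injective (algebraMap B' A') := FaithfulSMul.algebraMap_injective B' A'
  have : Module.IsTorsionFree B' A' := by
    exact Module.isTorsionFree_iff_algebraMap_injective.2 i2
  have : Module.IsTorsionFree B' k := by
    exact Module.isTorsionFree_iff_algebraMap_injective.2 i1
  have : Algebra.IsAlgebraic B' A' := by
    have : Algebra.IsIntegral B' A' := inferInstance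
    infer_instance
  let ψ : A' →ₐ[B'] k := IsAlgClosed.lift
  refine ⟨ψ.toRingHom.comp (Ideal.Quotient.mk Q), fun b => ?_⟩
  have h1 : Ideal.Quotient.mk Q (algebraMap B A b) = algebraMap B' A' (Ideal.Quotient.mk _ b) := rfl
  show ψ (Ideal.Quotient.mk Q (algebraMap B A b)) = l b
  rw [h1, ψ.commutes]
  rfl

theorem exists_char {ι R k G : Type*} [CommRing R] [Field k] [IsAlgClosed k] [Algebra R k]
    [CommGroup G] [Finite G] (θ : FreeAlgebra R ι →ₐ[R] MonoidAlgebra R G)
    (lam : FreeAlgebra R ι →ₐ[R] k) (h : ∀ t, θ t = 0 → lam t = 0) :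
    ∃ ψ : MonoidAlgebra R G →+* k, ∀ t, ψ (θ t) = lam t := by
  let B : Subalgebra R (MonoidAlgebra R G) := θ.range
  let θ' : FreeAlgebra R ι →+* B := θ.rangeRestrict.toRingHom
  have hs : Function.Surjective θ' := θ.rangeRestrict_surjective
  have hk : RingHom.ker θ' ≤ RingHom.ker lam.toRingHom := by
    intro t ht
    rw [RingHom.mem_ker] at ht ⊢
    apply h
    have := congrArg (Subtype.val) ht
    exact this
  let l : B →+* k := RingHom.liftOfSurjective θ' hs ⟨lam.toRingHom, hk⟩
  have hl : ∀ t, l (θ' t) = lam t := fun t =>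
    RingHom.liftOfRightInverse_comp_apply _ _ _ _ t
  have : Algebra.IsIntegral B (MonoidAlgebra R G) := by
    have : Module.Finite R (MonoidAlgebra R G) := inferInstance
    have : Algebra.IsIntegral R (MonoidAlgebra R G) := inferInstance
    exact Algebra.IsIntegral.tower_top (R := R)
  obtain ⟨ψ, hψ⟩ := exists_ext (B := B) (A := MonoidAlgebra R G) Subtype.val_injective l
  refine ⟨ψ, fun t => ?_⟩
  rw [← hl, ← hψ]
  rfl

end Pool.Agent.T2h62.CG
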