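import Pool.Agent.T2h62.CG.Grp
import Pool.Agent.W401.Cheb.Main

/-!
# Elements of the commutator subgroup are Frobenius elements at primes `1` modulo `m`
-/

set_option autoImplicit false

open NumberField Pool.Agent.W401.Cheb

noncomputable section

namespace Pool.Agent.T2h62.CG

/-- a Frobenius element which fixes the `m`-th roots of unity belongs to a prime `1` modulo `m` -/
theorem frob_mod {L' : Type} [Field L'] [NumberField L'] {m : ℕ} [NeZero m] {ζ : L'}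
    (hζ : IsPrimitiveRoot ζ m) {ℓ : ℕ} [hl : Fact ℓ.Prime] (hlm : ¬ ℓ ∣ m)
    (φ : 𝓞 L' →+* AlgebraicClosure (ZMod ℓ)) (σ : Gal(L'/ℚ)) (h : HasFrob ℓ φ σ)
    (hσ : σ ζ = ζ) : (ℓ : ZMod m) = 1 := by
  have hζ' : IsPrimitiveRoot hζ.toInteger m := hζ.toInteger_isPrimitiveRoot
  have h1 : σ • hζ.toInteger = hζ.toInteger := by
    apply RingOfIntegers.ext
    exact hσ
  have h2 := h hζ.toInteger
  rw [h1] at h2
  have hm0 : NeZero ((m : ℕ) : AlgebraicClosure (ZMod ℓ)) := by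
    refine ⟨fun h0 => hlm ?_⟩
    exact (CharP.cast_eq_zero_iff (AlgebraicClosure (ZMod ℓ)) ℓ m).1 h0
  have h3 : IsPrimitiveRoot (φ hζ.toInteger) m := by
    rw [← Polynomial.isRoot_cyclotomic_iff]
    have h4 := (hζ'.isRoot_cyclotomic (NeZero.pos m)).map (f := φ)
    rwa [Polynomial.map_cyclotomic] at h4
  have hfo : IsOfFinOrder (φ hζ.toInteger) := h3.isOfFinOrder (NeZero.ne m)
  have h5 : φ hζ.toInteger ^ ℓ = φ hζ.toInteger ^ 1 := by rw [pow_one]; exact h2.symm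
  have h6 := hfo.pow_eq_pow_iff_modEq.1 h5
  rw [← h3.eq_orderOf] at h6
  have h7 := (ZMod.natCast_eq_natCast_iff _ _ _).2 h6
  rwa [Nat.cast_one] at h7

theorem exists_frob_one (L : Type) [Field L] [NumberField L] [IsGalois ℚ L] {m : ℕ} (hm : 1 < m)
    {S : Set ℕ} (hS : S.Finite) (g : Gal(L/ℚ)) (hg : g ∈ commutator Gal(L/ℚ)) :
    ∃ (ℓ : ℕ) (_ : Fact ℓ.Prime) (φ : 𝓞 L →+* AlgebraicClosure (ZMod ℓ)), ℓ ∉ S ∧
      (ℓ : ZMod m) = 1 ∧ HasFrob ℓ φ g := by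
  have : NeZero m := ⟨by omega⟩
  let L' := CyclotomicField m L
  have hNF : NumberField L' := IsCyclotomicExtension.numberField {m} L L'
  have hζ : IsPrimitiveRoot (IsCyclotomicExtension.zeta m L L') m :=
    IsCyclotomicExtension.zeta_spec m L L'
  have hG : IsGalois ℚ L' := by
    have h5 : Normal ℚ L' := Pool.Agent.W540.CH.normal_gen ℚ L L' m _ hζ
    exact ⟨⟩
  let res : Gal(L'/ℚ) →* Gal(L/ℚ) := AlgEquiv.restrictNormalHom (F := ℚ) (K₁ := L') L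
  have hres : Function.Surjective res := AlgEquiv.restrictNormalHom_surjective L'
  have hcom : (commutator Gal(L'/ℚ)).map res = commutator Gal(L/ℚ) := by
    rw [commutator_def, commutator_def, Subgroup.map_commutator, Subgroup.map_top_of_surjective _ hres]
  rw [← hcom] at hg
  obtain ⟨σ, hσ, rfl⟩ := hg
  have hσζ : σ (IsCyclotomicExtension.zeta m L L') = IsCyclotomicExtension.zeta m L L' := by
    have h1 : hζ.autToPow ℚ σ = 1 := by
      have := Abelianization.commutator_subset_ker (hζ.autToPow ℚ) hσ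
      exact this
    rw [← hζ.autToPow_spec ℚ σ, h1, Units.val_one, ZMod.val_one'' hm.ne', pow_one]
  have hinf := infinite_frob L' σ
  have hfin : (S ∪ {q | q ∣ m}).Finite := by
    apply hS.union
    exact (Set.finite_Iic m).subset fun q hq => Nat.le_of_dvd (by omega) hq
  obtain ⟨ℓ, ⟨hℓ, hx⟩, hnot⟩ := (hinf.diff hfin).nonempty
  have hF : Fact ℓ.Prime := ⟨hℓ⟩
  have hℓS : ℓ ∉ S := fun h => hnot (Or.inl h)
  have hℓm : ¬ ℓ ∣ m := fun h => hnot (Or.inr h)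
  rw [xp, dif_pos hℓ] at hx
  obtain ⟨⟨φ, hφ⟩⟩ := (Nat.card_ne_zero.1 hx).1
  refine ⟨ℓ, hF, φ.comp (algebraMap (𝓞 L) (𝓞 L')), hℓS, frob_mod hζ hℓm φ σ hφ hσζ, ?_⟩
  intro x
  have h1 : algebraMap (𝓞 L) (𝓞 L') (res σ • x) = σ • algebraMap (𝓞 L) (𝓞 L') x := by
    apply RingOfIntegers.ext
    exact AlgEquiv.restrictNormal_commutes σ L (x : L)
  rw [RingHom.comp_apply, h1]
  exact hφ _

/-- **Reducibility.** -/
theorem gal_red (L : Type) [Field L] [NumberField L] [IsGalois ℚ L] {k : Type*} [Field k]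
    [IsAlgClosed k] {p : ℕ} [Fact p.Prime] [CharP k p] {n : ℕ} (hn : n ≠ 0) {m : ℕ} (hm : 1 < m)
    {S : Set ℕ} (hS : S.Finite) (ρ : Gal(L/ℚ) →* GL (Fin n) k)
    (h : ∀ (ℓ : ℕ) [Fact ℓ.Prime] (φ : 𝓞 L →+* AlgebraicClosure (ZMod ℓ)) (g : Gal(L/ℚ)),
      ℓ ∉ S → (ℓ : ZMod m) = 1 → HasFrob ℓ φ g →
      (ρ g).1.charpoly = (Polynomial.X - 1) ^ n ∨ (ρ g⁻¹).1.charpoly = (Polynomial.X - 1) ^ n) :
    ∃ v : Fin n → k, v ≠ 0 ∧ ∀ g, ∃ a : k, Matrix.mulVec (ρ g).1 v = a • v := by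
  refine exists_eigenvector (p := p) hn ρ fun g hg => ?_
  obtain ⟨ℓ, hF, φ, h1, h2, h3⟩ := exists_frob_one L hm hS g hg
  rcases h ℓ φ g h1 h2 h3 with h4 | h4
  · exact pow_eq_one _ h4
  · obtain ⟨N, hN⟩ := pow_eq_one (p := p) _ h4
    refine ⟨N, ?_⟩
    rw [map_inv, inv_pow, inv_eq_one] at hN
    exact hN

end Pool.Agent.T2h62.CG
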