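import Mathlib

/-!
# A common eigenvector for a group whose commutator subgroup acts by unipotents
-/

set_option autoImplicit false

open Matrix
open scoped commutatorElement

noncomputable section

namespace Pool.Agent.T2h62.CG

/-- a `p`-group acting on a nonzero abelian group of exponent `p` has a nonzero fixed point -/
theorem exists_fixed' {p : ℕ} [hp : Fact p.Prime] {D : Type*} [Group D] [Finite D]
    (hD : IsPGroup p D) {A : Type*} [AddCommGroup A] [DistribMulAction D A] [Module (ZMod p) A]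
    (hpA : ∀ a : A, p • a = 0) [Nontrivial A] : ∃ a : A, a ≠ 0 ∧ ∀ d : D, d • a = a := by
  obtain ⟨a, ha⟩ := exists_ne (0 : A)
  set S : Submodule (ZMod p) A := Submodule.span (ZMod p) (Set.range fun d : D => d • a) with hS
  have hstab : ∀ (d : D) (s : A), s ∈ S → d • s ∈ S := by
    intro d s hs
    induction hs using Submodule.span_induction with
    | mem x hx =>
      obtain ⟨e, rfl⟩ := hx
      apply Submodule.subset_span
      exact ⟨d * e, by simp [mul_smul]⟩
    | zero => rw [smul_zero]; exact S.zero_mem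
    | add x y _ _ hx hy => rw [smul_add]; exact S.add_mem hx hy
    | smul c x _ hx =>
      have h1 : d • (c • x) = c • (d • x) := by
        have := ((DistribSMul.toAddMonoidHom A d).toZModLinearMap p).map_smul c x
        exact this
      rw [h1]
      exact S.smul_mem c hx
  let _ : MulAction D S :=
    { smul := fun d s => ⟨d • (s : A), hstab d s s.2⟩
      one_smul := fun s => Subtype.ext (one_smul D (s : A))
      mul_smul := fun d e s => Subtype.ext (mul_smul d e (s : A)) }
  have : FiniteDimensional (ZMod p) S := by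
    rw [hS]
    exact FiniteDimensional.span_of_finite (ZMod p) (Set.finite_range _)
  have : Finite S := Module.finite_of_finite (ZMod p)
  have haS : a ∈ S := Submodule.subset_span ⟨1, by simp⟩
  have hdvd : p ∣ Nat.card S := by
    have h1 : addOrderOf (⟨a, haS⟩ : S) = p := by
      apply addOrderOf_eq_prime
      · exact Subtype.ext (hpA a)
      · intro h
        exact ha (congrArg Subtype.val h)
    exact (dvd_of_eq h1.symm).trans (addOrderOf_dvd_natCard _)
  obtain ⟨b, hb, hb0⟩ := hD.exists_fixed_point_of_prime_dvd_card_of_fixed_point S hdvd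
    (a := (0 : S)) (by
      rw [MulAction.mem_fixedPoints]
      intro d
      exact Subtype.ext (smul_zero d))
  refine ⟨b, fun h => hb0 (Subtype.ext h.symm), fun d => ?_⟩
  exact congrArg Subtype.val (hb d)

/-- a `p`-group acting on a nonzero abelian group of exponent `p` has a nonzero fixed point -/
theorem exists_fixed {p : ℕ} [hp : Fact p.Prime] {D : Type*} [Group D] [Finite D]
    (hD : IsPGroup p D) {A : Type*} [AddCommGroup A] [DistribMulAction D A]
    (hpA : ∀ a : A, p • a = 0) [Nontrivial A] : ∃ a : A, a ≠ 0 ∧ ∀ d : D, d • a = a := by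
  let m : Module (ZMod p) A := AddCommGroup.zmodModule hpA
  exact exists_fixed' hD hpA

/-- commuting operators on a nonzero finite-dimensional space have a common eigenvector -/
theorem exists_common {k V : Type*} [Field k] [IsAlgClosed k] [AddCommGroup V] [Module k V]
    [FiniteDimensional k V] {ι : Type*} (f : ι → Module.End k V) (U : Submodule k V) (hU : U ≠ ⊥)
    (hf : ∀ i, ∀ u ∈ U, f i u ∈ U) (hc : ∀ i j, ∀ u ∈ U, f i (f j u) = f j (f i u)) :
    ∃ v ∈ U, v ≠ 0 ∧ ∀ i, ∃ a : k, f i v = a • v := by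
  classical
  -- a minimal invariant subspace
  have hex : ∃ d : ℕ, ∃ T : Submodule k V, T ≤ U ∧ T ≠ ⊥ ∧ (∀ i, ∀ u ∈ T, f i u ∈ T) ∧
      Module.finrank k T = d := ⟨_, U, le_rfl, hU, hf, rfl⟩
  obtain ⟨T, hTU, hT, hfT, hd⟩ := Nat.find_spec hex
  have hmin : ∀ T' : Submodule k V, T' ≤ T → T' ≠ ⊥ → (∀ i, ∀ u ∈ T', f i u ∈ T') → T' = T := by
    intro T' h1 h2 h3
    apply Submodule.eq_of_le_of_finrank_le h1
    rw [hd]
    exact Nat.find_min' hex ⟨T', h1.trans hTU, h2, h3, rfl⟩
  obtain ⟨v, hvT, hv0⟩ := (Submodule.ne_bot_iff T).1 hT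
  refine ⟨v, hTU hvT, hv0, fun i => ?_⟩
  have hTn : Nontrivial T := Submodule.nontrivial_iff_ne_bot.2 hT
  let fi : Module.End k T := (f i).restrict (hfT i)
  obtain ⟨a, ha⟩ := Module.End.exists_eigenvalue fi
  let T' : Submodule k V := T ⊓ LinearMap.ker (f i - a • (1 : Module.End k V))
  have hmem : ∀ u, u ∈ T' ↔ u ∈ T ∧ f i u = a • u := by
    intro u
    rw [Submodule.mem_inf, LinearMap.mem_ker, LinearMap.sub_apply, LinearMap.smul_apply,
      Module.End.one_apply, sub_eq_zero]
  have hT' : T' = T := by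
    apply hmin T' inf_le_left
    · obtain ⟨w, hw⟩ := ha.exists_hasEigenvector
      rw [Submodule.ne_bot_iff]
      refine ⟨w.1, (hmem _).2 ⟨w.2, ?_⟩, fun h => hw.2 (Subtype.ext h)⟩
      have := congrArg Subtype.val hw.apply_eq_smul
      exact this
    · intro j u hu
      rw [hmem] at hu ⊢
      refine ⟨hfT j u hu.1, ?_⟩
      rw [hc i j u (hTU hu.1), hu.2, map_smul]
  rw [← hT', hmem] at hvT
  exact ⟨a, hvT.2⟩

theorem exists_eigenvector {G k : Type*} [Group G] [Finite G] [Field k] [IsAlgClosed k] {p : ℕ}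
    [hp : Fact p.Prime] [CharP k p] {n : ℕ} (hn : n ≠ 0) (ρ : G →* GL (Fin n) k)
    (h : ∀ g ∈ commutator G, ∃ N, ρ g ^ (p ^ N) = 1) :
    ∃ v : Fin n → k, v ≠ 0 ∧ ∀ g, ∃ a : k, (ρ g).1 *ᵥ v = a • v := by
  classical
  have : Nonempty (Fin n) := ⟨⟨0, Nat.pos_of_ne_zero hn⟩⟩
  let P : Subgroup (GL (Fin n) k) := (commutator G).map ρ
  have hPf : Finite P := by
    have : Finite ((commutator G).map ρ : Set (GL (Fin n) k)) :=
      (Set.toFinite (commutator G : Set G)).image ρ
    exact this
  have hP : IsPGroup p P := by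
    rintro ⟨_, g, hg, rfl⟩
    obtain ⟨N, hN⟩ := h g hg
    exact ⟨N, Subtype.ext hN⟩
  let ac : DistribMulAction P (Fin n → k) :=
    { smul := fun g v => g.1.1 *ᵥ v
      one_smul := fun v => Matrix.one_mulVec v
      mul_smul := fun g g' v => by
        show (g.1 * g'.1).1 *ᵥ v = g.1.1 *ᵥ (g'.1.1 *ᵥ v)
        rw [Matrix.mulVec_mulVec]
        rfl
      smul_zero := fun g => Matrix.mulVec_zero _
      smul_add := fun g v w => Matrix.mulVec_add _ v w }
  obtain ⟨w, hw0, hw⟩ := exists_fixed hP (A := Fin n → k) (fun a => by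
    funext i
    rw [Pi.smul_apply, nsmul_eq_mul, CharP.cast_eq_zero, zero_mul]
    rfl)
  let f : G → Module.End k (Fin n → k) := fun g => (ρ g).1.mulVecLin
  have hfm : ∀ g g' v, f (g * g') v = f g (f g' v) := by
    intro g g' v
    show (ρ (g * g')).1 *ᵥ v = (ρ g).1 *ᵥ ((ρ g').1 *ᵥ v)
    rw [Matrix.mulVec_mulVec, map_mul]
    rfl
  let U : Submodule k (Fin n → k) :=
    { carrier := {v | ∀ c ∈ commutator G, f c v = v}
      add_mem' := fun {a b} ha hb c hc => by rw [map_add, ha c hc, hb c hc]
      zero_mem' := fun c _ => map_zero _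
      smul_mem' := fun r a ha c hc => by rw [map_smul, ha c hc] }
  have hU : U ≠ ⊥ := by
    rw [Submodule.ne_bot_iff]
    exact ⟨w, fun c hc => hw ⟨ρ c, c, hc, rfl⟩, hw0⟩
  obtain ⟨v, -, hv0, hv⟩ := exists_common f U hU
    (by
      intro g u hu c hc
      have h1 : c * g = g * (g⁻¹ * c * g) := by group
      rw [← hfm, h1, hfm]
      congr 1
      apply hu
      have := (inferInstance : (commutator G).Normal).conj_mem c hc g⁻¹
      rwa [inv_inv] at this)
    (by
      intro g g' u hu
      have h1 : g * g' = g' * g * ((g' * g)⁻¹ * (g * g')) := by group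
      rw [← hfm, ← hfm, h1, hfm]
      congr 1
      apply hu
      have h2 : (g' * g)⁻¹ * (g * g') = ⁅g⁻¹, g'⁻¹⁆ := by
        rw [commutatorElement_def]
        group
      rw [h2, commutator_def]
      exact Subgroup.commutator_mem_commutator (Subgroup.mem_top _) (Subgroup.mem_top _))
  exact ⟨v, hv0, hv⟩

/-- an invertible matrix with characteristic polynomial `(X - 1) ^ n` is a `p`-element -/
theorem pow_eq_one {k : Type*} [Field k] {p : ℕ} [hp : Fact p.Prime] [CharP k p] {n : ℕ}
    (g : GL (Fin n) k) (h : g.1.charpoly = (Polynomial.X - 1) ^ n) : ∃ N, g ^ (p ^ N) = 1 := by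
  refine ⟨n, ?_⟩
  have h1 := Matrix.aeval_self_charpoly g.1
  rw [h, map_pow, map_sub, Polynomial.aeval_X, map_one] at h1
  have h2 : (g.1 - 1) ^ (p ^ n) = 0 := by
    have hle : n ≤ p ^ n := (Nat.lt_pow_self hp.out.one_lt).le
    rw [← Nat.sub_add_cancel hle, pow_add, h1, mul_zero]
  have h3 : (g.1 - 1) ^ (p ^ n) = g.1 ^ (p ^ n) - 1 := by
    rcases Nat.eq_zero_or_pos n with rfl | hn
    · simp
    · have : Nonempty (Fin n) := ⟨⟨0, hn⟩⟩
      have : CharP (Matrix (Fin n) (Fin n) k) p := inferInstance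
      have h4 := sub_pow_char_pow_of_commute (R := Matrix (Fin n) (Fin n) k) (p := p) (n := n)
        (x := g.1) (y := 1) (Commute.one_right _)
      rwa [one_pow] at h4
  apply Units.ext
  rw [Units.val_pow_eq_pow_val, Units.val_one]
  rw [h3, sub_eq_zero] at h2
  exact h2

end Pool.Agent.T2h62.CG
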