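import Pool.Agent.T2h62.CG.Def
import Pool.Agent.T2h77N.Gen
import Pool.Agent.Helper460_CSP.Bls

/-!
# Basic facts
-/

set_option autoImplicit false

open Matrix

noncomputable section

namespace Pool.Agent.T2h62.CG

variable {n : ℕ}

theorem map_cast_det {A : Type} [CommRing A] (β : Matrix (Fin n) (Fin n) ℤ) :
    (β.map (Int.cast : ℤ → A)).det = ((β.det : ℤ) : A) :=
  (Int.cast_det (R := A) β).symm

theorem rg_val {A : Type} [CommRing A] {β : Matrix (Fin n) (Fin n) ℤ}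
    (h : IsUnit ((β.det : ℤ) : A)) : (rg A β).1 = β.map (Int.cast : ℤ → A) := by
  have h' : IsUnit (β.map (Int.cast : ℤ → A)) := by
    rw [Matrix.isUnit_iff_isUnit_det, map_cast_det]
    exact h
  unfold rg
  rw [dif_pos h']
  exact h'.unit_spec

theorem rg_mul {A : Type} [CommRing A] {β β' : Matrix (Fin n) (Fin n) ℤ}
    (h : IsUnit ((β.det : ℤ) : A)) (h' : IsUnit ((β'.det : ℤ) : A)) :
    rg A (β * β') = rg A β * rg A β' := by
  have h2 : IsUnit (((β * β').det : ℤ) : A) := by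
    rw [Matrix.det_mul, Int.cast_mul]
    exact h.mul h'
  apply Units.ext
  rw [Units.val_mul, rg_val h2, rg_val h, rg_val h']
  exact Matrix.map_mul (f := Int.castRingHom A)

theorem isUnit_coe (A : Type) [CommRing A] (γ : SpecialLinearGroup (Fin n) ℤ) :
    IsUnit ((γ.1.det : ℤ) : A) := by
  rw [γ.2]
  simp

/-- the homomorphism `SL_n(ℤ) → GL_n(A)` -/
def rgH (n : ℕ) (A : Type) [CommRing A] : SpecialLinearGroup (Fin n) ℤ →* GL (Fin n) A where
  toFun γ := rg A γ.1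
  map_one' := by
    apply Units.ext
    rw [rg_val (isUnit_coe A 1)]
    show (1 : Matrix (Fin n) (Fin n) ℤ).map (Int.cast : ℤ → A) = 1
    simp
  map_mul' γ γ' := rg_mul (isUnit_coe A γ) (isUnit_coe A γ')

theorem rgH_apply {A : Type} [CommRing A] (γ : SpecialLinearGroup (Fin n) ℤ) :
    rg A γ.1 = rgH n A γ := rfl

theorem rgH_eq_toGL {A : Type} [CommRing A] (γ : SpecialLinearGroup (Fin n) ℤ) :
    rgH n A γ = SpecialLinearGroup.toGL
      (SpecialLinearGroup.map (n := Fin n) (Int.castRingHom A) γ) := by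
  apply Units.ext
  rw [← rgH_apply, rg_val (isUnit_coe A γ)]
  rfl

theorem det_rgH {A : Type} [CommRing A] (γ : SpecialLinearGroup (Fin n) ℤ) :
    Matrix.GeneralLinearGroup.det (rgH n A γ) = 1 := by
  rw [rgH_eq_toGL]
  exact SpecialLinearGroup.coeToGL_det _

/-- the reduction `GL_n(ℤ/M') → GL_n(ℤ/M)` -/
def rd (n : ℕ) {M M' : ℕ} (h : M ∣ M') : GL (Fin n) (ZMod M') →* GL (Fin n) (ZMod M) :=
  Matrix.GeneralLinearGroup.map (ZMod.castHom h (ZMod M))

theorem isUnit_cast {M M' : ℕ} (h : M ∣ M') {a : ℤ} (ha : IsUnit (a : ZMod M')) :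
    IsUnit (a : ZMod M) := by
  have := ha.map (ZMod.castHom h (ZMod M))
  rwa [map_intCast] at this

theorem rd_rg {M M' : ℕ} (h : M ∣ M') {β : Matrix (Fin n) (Fin n) ℤ}
    (hβ : IsUnit ((β.det : ℤ) : ZMod M')) : rd n h (rg (ZMod M') β) = rg (ZMod M) β := by
  apply Units.ext
  ext i j
  show (ZMod.castHom h (ZMod M)) ((rg (ZMod M') β).1 i j) = _
  rw [rg_val hβ, rg_val (isUnit_cast h hβ), Matrix.map_apply, Matrix.map_apply, map_intCast]

theorem rd_rgH {M M' : ℕ} (h : M ∣ M') (γ : SpecialLinearGroup (Fin n) ℤ) :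
    rd n h (rgH n (ZMod M') γ) = rgH n (ZMod M) γ := rd_rg h (isUnit_coe _ γ)

/-- two elements with the same determinant differ by an element of `SL_n(ℤ)` -/
theorem exists_sl {M : ℕ} [NeZero M] (x y : GL (Fin n) (ZMod M))
    (h : Matrix.GeneralLinearGroup.det x = Matrix.GeneralLinearGroup.det y) :
    ∃ γ : SpecialLinearGroup (Fin n) ℤ, y = rgH n (ZMod M) γ * x := by
  have h1 : Matrix.GeneralLinearGroup.det (y * x⁻¹) = 1 := by
    rw [map_mul, map_inv, h, mul_inv_cancel]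
  have h2 : (y * x⁻¹).1.det = 1 := by
    have := congrArg Units.val h1
    exact this
  obtain ⟨γ, hγ⟩ := Pool.Agent.T2h77.N.surj n M ⟨(y * x⁻¹).1, h2⟩
  refine ⟨γ, ?_⟩
  rw [rgH_eq_toGL, hγ]
  have : (SpecialLinearGroup.toGL (⟨(y * x⁻¹).1, h2⟩ : SpecialLinearGroup (Fin n) (ZMod M)) :
      GL (Fin n) (ZMod M)) = y * x⁻¹ := Units.ext rfl
  rw [this, inv_mul_cancel_right]

theorem det_surj {A : Type} [CommRing A] (hn : n ≠ 0) :
    Function.Surjective (Matrix.GeneralLinearGroup.det : GL (Fin n) A → Aˣ) := by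
  have : Nonempty (Fin n) := ⟨⟨0, Nat.pos_of_ne_zero hn⟩⟩
  exact Matrix.GeneralLinearGroup.det_surjective

theorem det_rd {M M' : ℕ} (h : M ∣ M') (x : GL (Fin n) (ZMod M')) :
    Matrix.GeneralLinearGroup.det (rd n h x) = ZMod.unitsMap h (Matrix.GeneralLinearGroup.det x) :=
  Matrix.GeneralLinearGroup.map_det _ _

theorem rd_surj {M M' : ℕ} [NeZero M] [NeZero M'] (h : M ∣ M') (hn : n ≠ 0) :
    Function.Surjective (rd n h) := by
  intro x
  obtain ⟨a, ha⟩ := ZMod.unitsMap_surjective h (Matrix.GeneralLinearGroup.det x)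
  obtain ⟨y, hy⟩ := det_surj hn a
  obtain ⟨γ, hγ⟩ := exists_sl (rd n h y) x (by rw [det_rd, hy, ha])
  refine ⟨rgH n _ γ * y, ?_⟩
  rw [map_mul, rd_rgH, ← hγ]

/-! ### The Hecke operators -/

section hecke

variable {M : ℕ} {R W : Type*} [CommRing R] [AddCommGroup W] [Module R W]

theorem hk_apply (X : Finset (Matrix (Fin n) (Fin n) ℤ)) (φ : Fn n M W) (b : GL (Fin n) ℚ)
    (c : GL (Fin n) (ZMod M)) :
    hk R X φ b c = ∑ β ∈ X, φ (b * rg ℚ β) ((rg (ZMod M) β)⁻¹ * c) := rfl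

theorem hk_aut0 {D : Set (Matrix (Fin n) (Fin n) ℤ)} {X : Finset (Matrix (Fin n) (Fin n) ℤ)}
    (hX : IsReps D X) (hD : ∀ β ∈ D, ∀ γ : SpecialLinearGroup (Fin n) ℤ, γ.1 * β ∈ D)
    (hQ : ∀ β ∈ D, IsUnit ((β.det : ℤ) : ℚ)) (hM : ∀ β ∈ D, IsUnit ((β.det : ℤ) : ZMod M))
    {φ : Fn n M W} (hφ : Aut0 φ) : Aut0 (hk R X φ) := by
  intro γ b c
  rw [hk_apply, hk_apply]
  have key : ∀ β ∈ X, ∃ β' ∈ X, ∃ γ' : SpecialLinearGroup (Fin n) ℤ, γ.1 * β = β' * γ'.1 := by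
    intro β hβ
    obtain ⟨r, ⟨hr, γ', h1⟩, -⟩ := hX.2 _ (hD β (hX.1 β hβ) γ)
    exact ⟨r, hr, γ', h1⟩
  choose! s hs g hg using key
  refine Finset.sum_bij (fun β _ => s β) (fun β hβ => hs β hβ) ?_ ?_ ?_
  · intro β hβ β' hβ' he
    have e1 := hg β hβ
    have e2 := hg β' hβ'
    rw [← he] at e2
    have e3 : β' = β * ((g β)⁻¹ * g β').1 := by
      have h1 : γ.1 * (β * ((g β)⁻¹ * g β').1) = γ.1 * β' := by
        rw [← mul_assoc, e1, e2]
        show s β * (g β).1 * ((g β)⁻¹.1 * (g β').1) = _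
        rw [mul_assoc, ← mul_assoc (g β).1]
        have : (g β).1 * (g β)⁻¹.1 = 1 := by
          have := congrArg Subtype.val (mul_inv_cancel (g β))
          exact this
        rw [this, one_mul]
      have h2 : (γ⁻¹).1 * γ.1 = 1 := by
        have := congrArg Subtype.val (inv_mul_cancel γ)
        exact this
      calc β' = (γ⁻¹).1 * (γ.1 * β') := by rw [← mul_assoc, h2, one_mul]
        _ = (γ⁻¹).1 * (γ.1 * (β * ((g β)⁻¹ * g β').1)) := by rw [h1]
        _ = _ := by rw [← mul_assoc, h2, one_mul]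
    obtain ⟨r, -, hr⟩ := hX.2 β' (hX.1 β' hβ')
    have h1 := hr β ⟨hβ, _, e3⟩
    have h2 := hr β' ⟨hβ', 1, by simp⟩
    rw [h1, h2]
  · intro β' hβ'
    obtain ⟨r, ⟨hr, γ', h1⟩, -⟩ := hX.2 _ (hD β' (hX.1 β' hβ') γ⁻¹)
    refine ⟨r, hr, ?_⟩
    have e1 : γ.1 * r = β' * (γ'⁻¹).1 := by
      have h2 : γ'.1 * (γ'⁻¹).1 = 1 := by
        have := congrArg Subtype.val (mul_inv_cancel γ')
        exact this
      have h3 : γ.1 * (γ⁻¹).1 = 1 := by
        have := congrArg Subtype.val (mul_inv_cancel γ)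
        exact this
      calc γ.1 * r = γ.1 * (r * γ'.1) * (γ'⁻¹).1 := by rw [mul_assoc, mul_assoc, h2, mul_one]
        _ = γ.1 * ((γ⁻¹).1 * β') * (γ'⁻¹).1 := by rw [← h1]
        _ = _ := by rw [← mul_assoc, h3, one_mul]
    have e2 := hg r hr
    obtain ⟨r', -, hr'⟩ := hX.2 _ (hD r (hX.1 r hr) γ)
    have h1 := hr' (s r) ⟨hs r hr, _, e2⟩
    have h2 := hr' β' ⟨hβ', _, e1⟩
    rw [h1, h2]
  · intro β hβ
    have e1 := hg β hβ
    have hβD := hX.1 β hβ
    have hsD := hX.1 _ (hs β hβ)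
    have q1 : rg ℚ γ.1 * rg ℚ β = rg ℚ (s β) * rg ℚ (g β).1 := by
      rw [← rg_mul (isUnit_coe _ γ) (hQ β hβD), e1, rg_mul (hQ _ hsD) (isUnit_coe _ _)]
    have q2 : rg (ZMod M) γ.1 * rg (ZMod M) β = rg (ZMod M) (s β) * rg (ZMod M) (g β).1 := by
      rw [← rg_mul (isUnit_coe _ γ) (hM β hβD), e1, rg_mul (hM _ hsD) (isUnit_coe _ _)]
    rw [mul_assoc, q1, ← mul_assoc, hφ (g β)]
    congr 1
    rw [← mul_assoc, ← mul_assoc]
    congr 1
    rw [eq_inv_mul_iff_mul_eq, ← mul_assoc, ← q2, mul_inv_cancel_right]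

/-- intertwining operators and the free algebra -/
theorem lift_comm {ι V V' : Type*} [AddCommGroup V] [Module R V] [AddCommGroup V'] [Module R V']
    (f : ι → Module.End R V) (f' : ι → Module.End R V') (F : V →ₗ[R] V')
    (h : ∀ q v, F (f q v) = f' q (F v)) (t : FreeAlgebra R ι) :
    ∀ v, F (FreeAlgebra.lift R f t v) = FreeAlgebra.lift R f' t (F v) := by
  induction t using FreeAlgebra.induction with
  | grade0 r =>
    intro v
    simp only [AlgHom.commutes, Module.algebraMap_end_apply, map_smul]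
  | grade1 q =>
    intro v
    simp only [FreeAlgebra.lift_ι_apply, h]
  | mul a b ha hb =>
    intro v
    rw [map_mul, map_mul, Module.End.mul_apply, Module.End.mul_apply, ha, hb]
  | add a b ha hb =>
    intro v
    rw [map_add, map_add, LinearMap.add_apply, LinearMap.add_apply, map_add, ha, hb]

theorem lift_mem {ι V : Type*} [AddCommGroup V] [Module R V] (f : ι → Module.End R V)
    (U : Submodule R V) (h : ∀ q, ∀ v ∈ U, f q v ∈ U) (t : FreeAlgebra R ι) :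
    ∀ v ∈ U, FreeAlgebra.lift R f t v ∈ U := by
  induction t using FreeAlgebra.induction with
  | grade0 r =>
    intro v hv
    simp only [AlgHom.commutes, Module.algebraMap_end_apply]
    exact U.smul_mem r hv
  | grade1 q =>
    intro v hv
    simp only [FreeAlgebra.lift_ι_apply]
    exact h q v hv
  | mul a b ha hb =>
    intro v hv
    rw [map_mul, Module.End.mul_apply]
    exact ha _ (hb v hv)
  | add a b ha hb =>
    intro v hv
    rw [map_add, LinearMap.add_apply]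
    exact U.add_mem (ha v hv) (hb v hv)

end hecke

/-! ### Double cosets -/

theorem prod_ite_lt (n j : ℕ) (hj : j ≤ n) (a : ℤ) :
    ∏ i : Fin n, (if (i : ℕ) < j then a else 1) = a ^ j := by
  rw [Finset.prod_ite, Finset.prod_const, Finset.prod_const_one, mul_one]
  congr 1
  rw [Fin.card_filter_val_lt]
  exact min_eq_right hj

theorem Dbl_det {ℓ j : ℕ} (hj : j ≤ n) {β : Matrix (Fin n) (Fin n) ℤ} (h : β ∈ Dbl n ℓ j) :
    β.det = (ℓ : ℤ) ^ j := by
  obtain ⟨γ, γ', rfl⟩ := h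
  rw [Matrix.det_mul, Matrix.det_mul, γ.2, γ'.2, one_mul, mul_one, Matrix.det_diagonal,
    prod_ite_lt n j hj]

theorem Dbl_left {ℓ j : ℕ} {β : Matrix (Fin n) (Fin n) ℤ} (h : β ∈ Dbl n ℓ j)
    (γ : SpecialLinearGroup (Fin n) ℤ) : γ.1 * β ∈ Dbl n ℓ j := by
  obtain ⟨γ₁, γ', rfl⟩ := h
  exact ⟨γ * γ₁, γ', by
    show _ = γ.1 * γ₁.1 * _ * _
    simp only [mul_assoc]⟩

theorem Dbl_unitQ {ℓ j : ℕ} (hj : j ≤ n) (hℓ : ℓ.Prime) {β : Matrix (Fin n) (Fin n) ℤ}
    (h : β ∈ Dbl n ℓ j) : IsUnit ((β.det : ℤ) : ℚ) := by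
  rw [Dbl_det hj h, isUnit_iff_ne_zero]
  have := hℓ.ne_zero
  push_cast
  positivity

theorem Dbl_unitZ {M ℓ j : ℕ} (hj : j ≤ n) (hℓ : ℓ.Coprime M) {β : Matrix (Fin n) (Fin n) ℤ}
    (h : β ∈ Dbl n ℓ j) : IsUnit ((β.det : ℤ) : ZMod M) := by
  rw [Dbl_det hj h]
  push_cast
  exact ((ZMod.isUnit_iff_coprime ℓ M).2 hℓ).pow j

end Pool.Agent.T2h62.CG
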