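import Pool.Agent.T2h62.CG.Def
import Pool.Agent.W401.Cheb.Defs

/-!
# Galois representations attached to an eigensystem
-/

set_option autoImplicit false

open NumberField Polynomial

noncomputable section

namespace Pool.Agent.T2h62.CG

/-- the eigenvalue of `T_{ℓ,j}` for a prime `ℓ ∉ S` and `1 ≤ j ≤ n` (and `1` otherwise, so for
`j = 0`) -/
def ev {n : ℕ} {S : Set ℕ} {R k : Type*} [CommRing R] [Field k] [Algebra R k]
    (lam : FreeAlgebra R (Ix n S) →ₐ[R] k) (ℓ j : ℕ) : k :=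
  open Classical in
    if h : ℓ.Prime ∧ ℓ ∉ S ∧ 1 ≤ j ∧ j ≤ n then lam (FreeAlgebra.ι R ⟨(ℓ, j), h⟩) else 1

/-- the polynomial `∑_j (-1)^j ℓ^{j(j-1)/2} λ(T_{ℓ,j}) X^{n-j}` -/
def satake {n : ℕ} {S : Set ℕ} {R k : Type*} [CommRing R] [Field k] [Algebra R k]
    (lam : FreeAlgebra R (Ix n S) →ₐ[R] k) (ℓ : ℕ) : k[X] :=
  ∑ j ∈ Finset.range (n + 1), C ((-1) ^ j * (ℓ : k) ^ (j * (j - 1) / 2) * ev lam ℓ j) * X ^ (n - j)

/-- `ρ` is attached to the eigensystem `lam`: for all primes `ℓ ∉ S` and all Frobenius elements `g`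
at `ℓ` (`φ (g x) = φ (x) ^ ℓ` for a homomorphism `φ : 𝓞_L → F̄_ℓ`) the characteristic polynomial of
`ρ (g)` is `satake lam ℓ`; or the same holds for the inverses `g⁻¹` (geometric Frobenius
elements) -/
def Attached {n : ℕ} {S : Set ℕ} {R k : Type*} [CommRing R] [Field k] [Algebra R k]
    (lam : FreeAlgebra R (Ix n S) →ₐ[R] k) (L : Type) [Field L] [NumberField L]
    (ρ : Gal(L/ℚ) →* GL (Fin n) k) : Prop :=
  (∀ (ℓ : ℕ) [Fact ℓ.Prime], ℓ ∉ S → ∀ (φ : 𝓞 L →+* AlgebraicClosure (ZMod ℓ)) (g : Gal(L/ℚ)),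
    Pool.Agent.W401.Cheb.HasFrob ℓ φ g → (ρ g).1.charpoly = satake lam ℓ) ∨
  (∀ (ℓ : ℕ) [Fact ℓ.Prime], ℓ ∉ S → ∀ (φ : 𝓞 L →+* AlgebraicClosure (ZMod ℓ)) (g : Gal(L/ℚ)),
    Pool.Agent.W401.Cheb.HasFrob ℓ φ g → (ρ g⁻¹).1.charpoly = satake lam ℓ)

end Pool.Agent.T2h62.CG
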