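import Pool.Agent.T2h62.CG.Bas

/-!
# Representatives of `SL_n(ℤ) diag(ℓ, …, ℓ, 1, …, 1) SL_n(ℤ) / SL_n(ℤ)` and their number modulo `p`
-/

set_option autoImplicit false

open Matrix Module

noncomputable section

namespace Pool.Agent.T2h62.CG

variable {n : ℕ}

/-- coordinate subspaces -/
def Eco (F : Type) [Field F] (I : Finset (Fin n)) : Submodule F (Fin n → F) where
  carrier := {v | ∀ i ∉ I, v i = 0}
  add_mem' := fun {a b} ha hb i hi => by rw [Pi.add_apply, ha i hi, hb i hi, add_zero]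
  zero_mem' := fun i _ => rfl
  smul_mem' := fun r a ha i hi => by rw [Pi.smul_apply, ha i hi, smul_zero]

theorem mem_Eco {F : Type} [Field F] {I : Finset (Fin n)} {v : Fin n → F} :
    v ∈ Eco F I ↔ ∀ i ∉ I, v i = 0 := Iff.rfl

theorem single_mem_Eco {F : Type} [Field F] {I : Finset (Fin n)} {i : Fin n} :
    (Pi.single i 1 : Fin n → F) ∈ Eco F I ↔ i ∈ I := by
  constructor
  · intro h
    by_contra hi
    have := h i hi
    rw [Pi.single_eq_same] at this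
    exact one_ne_zero this
  · intro h k hk
    exact Pi.single_eq_of_ne (fun e => hk (by rw [e]; exact h)) 1

theorem finrank_Eco (F : Type) [Field F] (I : Finset (Fin n)) : finrank F (Eco F I) = I.card := by
  classical
  let e : Eco F I ≃ₗ[F] (I → F) :=
    { toFun := fun v i => v.1 i.1
      map_add' := fun _ _ => rfl
      map_smul' := fun _ _ => rfl
      invFun := fun w => ⟨fun i => if h : i ∈ I then w ⟨i, h⟩ else 0, fun i hi => dif_neg hi⟩
      left_inv := fun v => by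
        apply Subtype.ext
        funext i
        show (if h : i ∈ I then v.1 i else 0) = v.1 i
        split_ifs with h
        · rfl
        · exact (v.2 i h).symm
      right_inv := fun w => by
        funext i
        show (if h : i.1 ∈ I then w ⟨i.1, h⟩ else 0) = w i
        rw [dif_pos i.2] }
  rw [e.finrank_eq, Module.finrank_fintype_fun_eq_card, Fintype.card_coe]

/-- the last coordinates -/
def la (n j : ℕ) : Finset (Fin n) := Finset.univ.filter fun i => ¬ (i : ℕ) < j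

theorem mem_la {j : ℕ} {i : Fin n} : i ∈ la n j ↔ ¬ (i : ℕ) < j := by
  rw [la, Finset.mem_filter, and_iff_right (Finset.mem_univ i)]

theorem card_la {j : ℕ} (hj : j ≤ n) : (la n j).card = n - j := by
  have h1 := Finset.card_filter_add_card_filter_not (s := (Finset.univ : Finset (Fin n)))
    (fun i => (i : ℕ) < j)
  rw [Fin.card_filter_val_lt, min_eq_right hj, Finset.card_univ, Fintype.card_fin] at h1
  unfold la
  omega

/-- the column space modulo `ℓ` -/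
def cs (ℓ : ℕ) (β : Matrix (Fin n) (Fin n) ℤ) : Submodule (ZMod ℓ) (Fin n → ZMod ℓ) :=
  LinearMap.range (β.map (Int.cast : ℤ → ZMod ℓ)).mulVecLin

theorem map_mul' (ℓ : ℕ) (β β' : Matrix (Fin n) (Fin n) ℤ) :
    (β * β').map (Int.cast : ℤ → ZMod ℓ) = β.map (Int.cast : ℤ → ZMod ℓ) * β'.map Int.cast :=
  Matrix.map_mul (f := Int.castRingHom (ZMod ℓ))

theorem cs_mul (ℓ : ℕ) (β β' : Matrix (Fin n) (Fin n) ℤ) :
    cs ℓ (β * β') = (cs ℓ β').map (β.map (Int.cast : ℤ → ZMod ℓ)).mulVecLin := by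
  rw [cs, map_mul', Matrix.mulVecLin_mul, LinearMap.range_comp, cs]

theorem coe_inv_mul (γ : SpecialLinearGroup (Fin n) ℤ) : (γ⁻¹).1 * γ.1 = 1 :=
  congrArg Subtype.val (inv_mul_cancel γ)

theorem coe_mul_inv (γ : SpecialLinearGroup (Fin n) ℤ) : γ.1 * (γ⁻¹).1 = 1 :=
  congrArg Subtype.val (mul_inv_cancel γ)

theorem cs_mul_sl (ℓ : ℕ) (β : Matrix (Fin n) (Fin n) ℤ) (γ : SpecialLinearGroup (Fin n) ℤ) :
    cs ℓ (β * γ.1) = cs ℓ β := by
  have h1 : ∀ (β : Matrix (Fin n) (Fin n) ℤ) (γ : SpecialLinearGroup (Fin n) ℤ),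
      cs ℓ (β * γ.1) ≤ cs ℓ β := by
    intro β γ
    rw [cs_mul, cs]
    exact LinearMap.map_le_range
  apply le_antisymm (h1 β γ)
  have := h1 (β * γ.1) γ⁻¹
  rwa [mul_assoc, coe_mul_inv, mul_one] at this

/-- the diagonal matrix -/
abbrev al (n ℓ j : ℕ) : Matrix (Fin n) (Fin n) ℤ :=
  Matrix.diagonal (fun i : Fin n => if (i : ℕ) < j then (ℓ : ℤ) else 1)

theorem cs_al (ℓ j : ℕ) [Fact ℓ.Prime] : cs ℓ (al n ℓ j) = Eco (ZMod ℓ) (la n j) := by
  have h1 : ∀ w : Fin n → ZMod ℓ, ((al n ℓ j).map (Int.cast : ℤ → ZMod ℓ)).mulVecLin w =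
      fun i : Fin n => if (i : ℕ) < j then 0 else w i := by
    intro w
    rw [Matrix.mulVecLin_apply]
    funext i
    rw [al, Matrix.diagonal_map (by simp), Matrix.mulVec_diagonal]
    split_ifs <;> simp
  ext v
  rw [cs, LinearMap.mem_range, mem_Eco]
  constructor
  · rintro ⟨w, rfl⟩ i hi
    rw [mem_la, not_not] at hi
    rw [h1]
    exact if_pos hi
  · intro h
    refine ⟨v, ?_⟩
    rw [h1]
    funext i
    by_cases hi : (i : ℕ) < j
    · have h2 := h i (by rw [mem_la, not_not]; exact hi)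
      rw [if_pos hi, h2]
    · exact if_neg hi

theorem inj_sl (ℓ : ℕ) (γ : SpecialLinearGroup (Fin n) ℤ) :
    Function.Injective (γ.1.map (Int.cast : ℤ → ZMod ℓ)).mulVecLin := by
  have h1 : ((γ⁻¹).1.map (Int.cast : ℤ → ZMod ℓ)) * γ.1.map (Int.cast : ℤ → ZMod ℓ) = 1 := by
    rw [← map_mul', coe_inv_mul]
    exact Matrix.map_one _ Int.cast_zero Int.cast_one
  intro v w h
  rw [Matrix.mulVecLin_apply, Matrix.mulVecLin_apply] at h
  have := congrArg (fun u => (γ⁻¹).1.map (Int.cast : ℤ → ZMod ℓ) *ᵥ u) h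
  simpa only [Matrix.mulVec_mulVec, h1, Matrix.one_mulVec] using this

theorem finrank_cs {ℓ j : ℕ} [Fact ℓ.Prime] (hj : j ≤ n) {β : Matrix (Fin n) (Fin n) ℤ}
    (hβ : β ∈ Dbl n ℓ j) : finrank (ZMod ℓ) (cs ℓ β) = n - j := by
  obtain ⟨γ, γ', rfl⟩ := hβ
  rw [cs_mul_sl, cs_mul, ← (Submodule.equivMapOfInjective _ (inj_sl ℓ γ) _).finrank_eq]
  rw [show Matrix.diagonal _ = al n ℓ j from rfl, cs_al, finrank_Eco, card_la hj]

/-- matrices with the same column space modulo `ℓ` differ by an element of `SL_n(ℤ)` -/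
theorem exists_of_cs {ℓ j : ℕ} [Fact ℓ.Prime] (hj : j ≤ n) {β β' : Matrix (Fin n) (Fin n) ℤ}
    (hβ : β ∈ Dbl n ℓ j) (hβ' : β' ∈ Dbl n ℓ j) (h : cs ℓ β = cs ℓ β') :
    ∃ γ : SpecialLinearGroup (Fin n) ℤ, β = β' * γ.1 := by
  have hℓ : (ℓ : ℤ) ≠ 0 := by exact_mod_cast (Fact.out : ℓ.Prime).ne_zero
  obtain ⟨γ₁, γ₁', rfl⟩ := hβ
  obtain ⟨γ₂, γ₂', rfl⟩ := hβ'
  change cs ℓ (γ₁.1 * al n ℓ j * γ₁'.1) = cs ℓ (γ₂.1 * al n ℓ j * γ₂'.1) at h
  rw [cs_mul_sl, cs_mul_sl] at h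
  obtain ⟨δ, hδ⟩ : ∃ δ, δ = γ₂⁻¹ * γ₁ := ⟨_, rfl⟩
  have h1 : cs ℓ (δ.1 * al n ℓ j) = Eco (ZMod ℓ) (la n j) := by
    rw [hδ]
    show cs ℓ ((γ₂⁻¹).1 * γ₁.1 * al n ℓ j) = _
    rw [mul_assoc, cs_mul, h, ← cs_mul, ← mul_assoc, coe_inv_mul, one_mul, cs_al]
  have h2 : ∀ i k : Fin n, (i : ℕ) < j → ¬ (k : ℕ) < j → (ℓ : ℤ) ∣ δ.1 i k := by
    intro i k hi hk
    rw [cs_mul, cs_al] at h1
    have h3 : (δ.1.map (Int.cast : ℤ → ZMod ℓ)).mulVecLin (Pi.single k 1) ∈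
        Eco (ZMod ℓ) (la n j) := by
      rw [← h1]
      exact Submodule.mem_map_of_mem (single_mem_Eco.2 (mem_la.2 hk))
    have h4 := h3 i (by rw [mem_la, not_not]; exact hi)
    rw [Matrix.mulVecLin_apply, Matrix.mulVec_single_one] at h4
    rw [← ZMod.intCast_zmod_eq_zero_iff_dvd]
    exact h4
  let D : Matrix (Fin n) (Fin n) ℤ := fun i k =>
    if (i : ℕ) < j then (if (k : ℕ) < j then δ.1 i k else δ.1 i k / ℓ)
    else (if (k : ℕ) < j then ℓ * δ.1 i k else δ.1 i k)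
  have h5 : al n ℓ j * D = δ.1 * al n ℓ j := by
    ext i k
    rw [al, Matrix.diagonal_mul, Matrix.mul_diagonal]
    show _ * (if (i : ℕ) < j then (if (k : ℕ) < j then δ.1 i k else δ.1 i k / ℓ)
      else (if (k : ℕ) < j then ℓ * δ.1 i k else δ.1 i k)) = _
    by_cases hi : (i : ℕ) < j
    · by_cases hk : (k : ℕ) < j
      · simp only [if_pos hi, if_pos hk]
        ring
      · simp only [if_pos hi, if_neg hk, mul_one]
        exact Int.mul_ediv_cancel' (h2 i k hi hk)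
    · by_cases hk : (k : ℕ) < j
      · simp only [if_neg hi, if_pos hk]
        ring
      · simp only [if_neg hi, if_neg hk]
        ring
  have hdet : D.det = 1 := by
    have h6 := congrArg Matrix.det h5
    rw [Matrix.det_mul, Matrix.det_mul, δ.2, one_mul, al, Matrix.det_diagonal,
      prod_ite_lt n j hj] at h6
    have h7 : (ℓ : ℤ) ^ j ≠ 0 := pow_ne_zero _ hℓ
    exact mul_left_cancel₀ h7 (by rw [h6, mul_one])
  refine ⟨γ₂'⁻¹ * ⟨D, hdet⟩ * γ₁', ?_⟩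
  show γ₁.1 * al n ℓ j * γ₁'.1 = γ₂.1 * al n ℓ j * γ₂'.1 * ((γ₂'⁻¹).1 * D * γ₁'.1)
  have h8 : γ₂.1 * δ.1 = γ₁.1 := by
    rw [hδ]
    show γ₂.1 * ((γ₂⁻¹).1 * γ₁.1) = _
    rw [← mul_assoc, coe_mul_inv, one_mul]
  calc γ₁.1 * al n ℓ j * γ₁'.1 = γ₂.1 * (δ.1 * al n ℓ j) * γ₁'.1 := by rw [← mul_assoc, h8]
    _ = γ₂.1 * (al n ℓ j * D) * γ₁'.1 := by rw [h5]
    _ = γ₂.1 * al n ℓ j * (γ₂'.1 * (γ₂'⁻¹).1) * D * γ₁'.1 := by
      rw [coe_mul_inv, mul_one]
      simp only [mul_assoc]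
    _ = _ := by simp only [mul_assoc]

/-- every subspace of dimension `n - j` is a column space -/
theorem exists_cs {ℓ j : ℕ} [Fact ℓ.Prime] (hj0 : 1 ≤ j) (hj : j ≤ n)
    (U : Submodule (ZMod ℓ) (Fin n → ZMod ℓ)) (hU : finrank (ZMod ℓ) U = n - j) :
    ∃ β ∈ Dbl n ℓ j, cs ℓ β = U := by
  classical
  have hn : 0 < n := by omega
  let i0 : Fin n := ⟨0, hn⟩
  have hf : finrank (ZMod ℓ) (Eco (ZMod ℓ) (la n j)) = finrank (ZMod ℓ) U := by
    rw [finrank_Eco, card_la hj, hU]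
  obtain ⟨g, hg⟩ := Submodule.exists_linearEquiv_restrict_eq (LinearEquiv.ofFinrankEq _ _ hf)
  let A : Matrix (Fin n) (Fin n) (ZMod ℓ) := LinearMap.toMatrix' g.toLinearMap
  have hA : A.mulVecLin = g.toLinearMap := by
    rw [← Matrix.toLin'_apply', Matrix.toLin'_toMatrix']
  have hdet : A.det ≠ 0 := by
    have h1 : A.det = LinearMap.det g.toLinearMap := LinearMap.det_toMatrix' _
    rw [h1]
    exact (LinearEquiv.isUnit_det' g).ne_zero
  let D : Matrix (Fin n) (Fin n) (ZMod ℓ) :=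
    Matrix.diagonal (Function.update (fun _ => (1 : ZMod ℓ)) i0 A.det⁻¹)
  have hAD : (A * D).det = 1 := by
    rw [Matrix.det_mul, Matrix.det_diagonal, Finset.prod_update_of_mem (Finset.mem_univ _)]
    simp [hdet]
  have hne : NeZero ℓ := ⟨(Fact.out : ℓ.Prime).ne_zero⟩
  obtain ⟨γ, hγ⟩ := Pool.Agent.T2h77.N.surj n ℓ ⟨A * D, hAD⟩
  have hγ' : γ.1.map (Int.cast : ℤ → ZMod ℓ) = A * D := congrArg Subtype.val hγ
  refine ⟨γ.1 * al n ℓ j, ⟨γ, 1, ?_⟩, ?_⟩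
  · show _ = γ.1 * al n ℓ j * (1 : Matrix (Fin n) (Fin n) ℤ)
    rw [mul_one]
  · rw [cs_mul, cs_al, hγ', Matrix.mulVecLin_mul, Submodule.map_comp]
    have h1 : (Eco (ZMod ℓ) (la n j)).map D.mulVecLin = Eco (ZMod ℓ) (la n j) := by
      have h2 : ∀ v ∈ Eco (ZMod ℓ) (la n j), D.mulVecLin v = v := by
        intro v hv
        rw [Matrix.mulVecLin_apply]
        funext i
        rw [Matrix.mulVec_diagonal]
        by_cases hi : i = i0
        · have h3 := hv i0 (by rw [mem_la, not_not]; exact hj0)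
          rw [hi, h3, mul_zero]
        · rw [Function.update_of_ne hi, one_mul]
      ext v
      rw [Submodule.mem_map]
      constructor
      · rintro ⟨w, hw, rfl⟩
        rw [h2 w hw]
        exact hw
      · intro hv
        exact ⟨v, hv, h2 v hv⟩
    rw [h1, hA]
    ext v
    rw [Submodule.mem_map]
    constructor
    · rintro ⟨w, hw, rfl⟩
      have := hg ⟨w, hw⟩
      show g w ∈ U
      rw [← this]
      exact Subtype.mem _
    · intro hv
      refine ⟨((LinearEquiv.ofFinrankEq _ _ hf).symm ⟨v, hv⟩).1, Subtype.mem _, ?_⟩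
      have := hg ((LinearEquiv.ofFinrankEq _ _ hf).symm ⟨v, hv⟩)
      rw [LinearEquiv.apply_symm_apply] at this
      exact this.symm

theorem exists_reps {ℓ j : ℕ} (hℓ : ℓ.Prime) (hj0 : 1 ≤ j) (hj : j ≤ n) :
    ∃ X : Finset (Matrix (Fin n) (Fin n) ℤ), IsReps (Dbl n ℓ j) X := by
  classical
  have : Fact ℓ.Prime := ⟨hℓ⟩
  have : Finite (Submodule (ZMod ℓ) (Fin n → ZMod ℓ)) :=
    Finite.of_injective (fun U => (U : Set (Fin n → ZMod ℓ))) SetLike.coe_injective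
  let T := {U : Submodule (ZMod ℓ) (Fin n → ZMod ℓ) // finrank (ZMod ℓ) U = n - j}
  have : Fintype T := Fintype.ofFinite T
  have h1 : ∀ U : T, ∃ β ∈ Dbl n ℓ j, cs ℓ β = U.1 := fun U => exists_cs hj0 hj U.1 U.2
  choose f hf hf' using h1
  refine ⟨Finset.univ.image f, ?_, ?_⟩
  · intro r hr
    obtain ⟨U, -, rfl⟩ := Finset.mem_image.1 hr
    exact hf U
  · intro β hβ
    refine ⟨f ⟨cs ℓ β, finrank_cs hj hβ⟩, ⟨Finset.mem_image_of_mem _ (Finset.mem_univ _), ?_⟩, ?_⟩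
    · exact exists_of_cs hj hβ (hf _) (by rw [hf'])
    · rintro r ⟨hr, γ, hγ⟩
      obtain ⟨U, -, rfl⟩ := Finset.mem_image.1 hr
      congr 1
      apply Subtype.ext
      show U.1 = cs ℓ β
      rw [hγ, cs_mul_sl, hf']

theorem card_reps {ℓ j : ℕ} [Fact ℓ.Prime] (hj0 : 1 ≤ j) (hj : j ≤ n)
    {X : Finset (Matrix (Fin n) (Fin n) ℤ)} (hX : IsReps (Dbl n ℓ j) X) :
    X.card = Nat.card {U : Submodule (ZMod ℓ) (Fin n → ZMod ℓ) // finrank (ZMod ℓ) U = n - j} := by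
  rw [← Nat.card_eq_finsetCard X]
  refine Nat.card_congr (Equiv.ofBijective (fun r => ⟨cs ℓ r.1, finrank_cs hj (hX.1 _ r.2)⟩)
    ⟨?_, ?_⟩)
  · intro r r' h
    have h1 : cs ℓ r.1 = cs ℓ r'.1 := congrArg Subtype.val h
    obtain ⟨γ, hγ⟩ := exists_of_cs hj (hX.1 _ r.2) (hX.1 _ r'.2) h1
    obtain ⟨s, -, hs⟩ := hX.2 r.1 (hX.1 _ r.2)
    have h2 := hs r.1 ⟨r.2, 1, (mul_one _).symm⟩
    have h3 := hs r'.1 ⟨r'.2, γ, hγ⟩
    exact Subtype.ext (h2.trans h3.symm)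
  · intro U
    obtain ⟨β, hβ, h1⟩ := exists_cs hj0 hj U.1 U.2
    obtain ⟨r, ⟨hr, γ, hγ⟩, -⟩ := hX.2 β hβ
    refine ⟨⟨r, hr⟩, Subtype.ext ?_⟩
    show cs ℓ r = U.1
    rw [← h1, hγ, cs_mul_sl]

end Pool.Agent.T2h62.CG
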