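import Pool.Agent.T2h62.CG.Cnt

/-!
# The number of subspaces modulo `p` when `ℓ` is `1` modulo `p`
-/

set_option autoImplicit false

open Matrix Module

noncomputable section

namespace Pool.Agent.T2h62.CG

variable {n : ℕ}

/-- the diagonal action of a family of units -/
def dg {F : Type} [Field F] (t : Fin n → Fˣ) : (Fin n → F) →ₗ[F] (Fin n → F) where
  toFun v i := (t i : F) * v i
  map_add' v w := by
    funext i
    rw [Pi.add_apply, Pi.add_apply, mul_add]
  map_smul' r v := by
    funext i
    rw [Pi.smul_apply, RingHom.id_apply, Pi.smul_apply, smul_eq_mul, smul_eq_mul]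
    ring

theorem dg_apply {F : Type} [Field F] (t : Fin n → Fˣ) (v : Fin n → F) (i : Fin n) :
    dg t v i = (t i : F) * v i := rfl

theorem dg_one {F : Type} [Field F] : dg (1 : Fin n → Fˣ) = LinearMap.id := by
  apply LinearMap.ext
  intro v
  funext i
  rw [dg_apply, Pi.one_apply, Units.val_one, one_mul, LinearMap.id_apply]

theorem dg_mul {F : Type} [Field F] (s t : Fin n → Fˣ) : dg (s * t) = (dg s).comp (dg t) := by
  apply LinearMap.ext
  intro v
  funext i
  rw [LinearMap.comp_apply, dg_apply, dg_apply, dg_apply, Pi.mul_apply, Units.val_mul, mul_assoc]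

theorem dg_inj {F : Type} [Field F] (t : Fin n → Fˣ) : Function.Injective (dg t) := by
  intro v w h
  funext i
  have := congrFun h i
  rw [dg_apply, dg_apply] at this
  exact mul_left_cancel₀ (t i).ne_zero this

theorem card_sub {ℓ p : ℕ} [Fact ℓ.Prime] [hp : Fact p.Prime] (h : p ∣ ℓ - 1) (d : ℕ) :
    Nat.card {U : Submodule (ZMod ℓ) (Fin n → ZMod ℓ) // finrank (ZMod ℓ) U = d} ≡
      n.choose d [MOD p] := by
  classical
  let F := ZMod ℓ
  let T := {U : Submodule F (Fin n → F) // finrank F U = d}
  let P := Fin n → rootsOfUnity p F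
  have hfin : Finite (Submodule F (Fin n → F)) :=
    Finite.of_injective (fun U => (U : Set (Fin n → F))) SetLike.coe_injective
  let ac : MulAction P T :=
    { smul := fun t U => ⟨U.1.map (dg fun i => (t i : Fˣ)), by
        rw [← (Submodule.equivMapOfInjective _ (dg_inj fun i => (t i : Fˣ)) U.1).finrank_eq]
        exact U.2⟩
      one_smul := fun U => by
        apply Subtype.ext
        show U.1.map (dg (1 : Fin n → Fˣ)) = U.1
        rw [dg_one, Submodule.map_id]
      mul_smul := fun s t U => by
        apply Subtype.ext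
        show U.1.map (dg ((fun i => (s i : Fˣ)) * fun i => (t i : Fˣ))) =
          (U.1.map (dg fun i => (t i : Fˣ))).map (dg fun i => (s i : Fˣ))
        rw [dg_mul, Submodule.map_comp] }
  have hP : IsPGroup p P := by
    intro t
    refine ⟨1, ?_⟩
    rw [pow_one]
    funext i
    apply Subtype.ext
    exact (t i).2
  have h1 := hP.card_modEq_card_fixedPoints T
  refine h1.trans ?_
  -- an element of order `p`
  obtain ⟨ζ, hζ⟩ : ∃ ζ : Fˣ, orderOf ζ = p := by
    apply exists_prime_orderOf_dvd_card'
    rw [Nat.card_eq_fintype_card, ZMod.card_units]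
    exact h
  have hζp : ζ ∈ rootsOfUnity p F := by
    rw [mem_rootsOfUnity, ← hζ, pow_orderOf_eq_one]
  have hζ1 : (ζ : F) ≠ 1 := by
    intro h2
    have h3 : ζ = 1 := Units.ext h2
    rw [h3, orderOf_one] at hζ
    exact hp.out.one_lt.ne hζ
  have hfix : ∀ U : T, U ∈ MulAction.fixedPoints P T ↔ ∃ I : Finset (Fin n), U.1 = Eco F I := by
    intro U
    constructor
    · intro hU
      refine ⟨Finset.univ.filter fun i => (Pi.single i 1 : Fin n → F) ∈ U.1, ?_⟩
      apply le_antisymm
      · intro v hv
        rw [mem_Eco]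
        intro i hi
        by_contra hvi
        apply hi
        rw [Finset.mem_filter]
        refine ⟨Finset.mem_univ _, ?_⟩
        have h2 := hU (fun k => if k = i then ⟨ζ, hζp⟩ else 1)
        have h3 : U.1.map (dg fun k => ((if k = i then ⟨ζ, hζp⟩ else 1 : rootsOfUnity p F) : Fˣ)) =
          U.1 := congrArg Subtype.val h2
        have h4 : dg (fun k => ((if k = i then ⟨ζ, hζp⟩ else 1 : rootsOfUnity p F) : Fˣ)) v ∈
            U.1 := h3.le (Submodule.mem_map_of_mem hv)
        have h5 := U.1.smul_mem (((ζ : F) - 1) * v i)⁻¹ (U.1.sub_mem h4 hv)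
        have h6 : (((ζ : F) - 1) * v i)⁻¹ •
            (dg (fun k => ((if k = i then ⟨ζ, hζp⟩ else 1 : rootsOfUnity p F) : Fˣ)) v - v) =
            Pi.single i 1 := by
          funext k
          rw [Pi.smul_apply, Pi.sub_apply, dg_apply, smul_eq_mul]
          by_cases hk : k = i
          · subst hk
            rw [if_pos rfl, Pi.single_eq_same]
            show _ * ((ζ : F) * v k - v k) = 1
            have h7 : ((ζ : F) - 1) * v k ≠ 0 := mul_ne_zero (sub_ne_zero.2 hζ1) hvi
            rw [show (ζ : F) * v k - v k = ((ζ : F) - 1) * v k by ring, inv_mul_cancel₀ h7]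
          · rw [if_neg hk, Pi.single_eq_of_ne hk]
            show _ * ((1 : F) * v k - v k) = 0
            rw [one_mul, sub_self, mul_zero]
        rw [h6] at h5
        exact h5
      · intro v hv
        rw [mem_Eco] at hv
        have h2 : v = ∑ i, v i • (Pi.single i 1 : Fin n → F) := by
          funext k
          rw [Finset.sum_apply, Finset.sum_eq_single k]
          · rw [Pi.smul_apply, Pi.single_eq_same, smul_eq_mul, mul_one]
          · intro b _ hb
            rw [Pi.smul_apply, Pi.single_eq_of_ne hb.symm, smul_zero]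
          · intro hk
            exact absurd (Finset.mem_univ k) hk
        rw [h2]
        refine U.1.sum_mem fun i _ => ?_
        by_cases hi : (Pi.single i 1 : Fin n → F) ∈ U.1
        · exact U.1.smul_mem _ hi
        · rw [hv i (fun h3 => hi (Finset.mem_filter.1 h3).2), zero_smul]
          exact U.1.zero_mem
    · rintro ⟨I, hI⟩ t
      apply Subtype.ext
      show U.1.map (dg fun i => (t i : Fˣ)) = U.1
      rw [hI]
      ext v
      rw [Submodule.mem_map]
      constructor
      · rintro ⟨w, hw, rfl⟩ i hi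
        rw [dg_apply, hw i hi, mul_zero]
      · intro hv
        refine ⟨dg (fun i => ((t i)⁻¹ : Fˣ)) v, fun i hi => ?_, ?_⟩
        · rw [dg_apply, hv i hi, mul_zero]
        · funext i
          rw [dg_apply, dg_apply, ← mul_assoc]
          rw [← Units.val_mul, mul_inv_cancel, Units.val_one, one_mul]
  have h2 : Nat.card (MulAction.fixedPoints P T) =
      Nat.card {I : Finset (Fin n) // I.card = d} := by
    symm
    refine Nat.card_congr (Equiv.ofBijective (fun I => ⟨⟨Eco F I.1, by rw [finrank_Eco, I.2]⟩,
      (hfix _).2 ⟨I.1, rfl⟩⟩) ⟨?_, ?_⟩)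
    · intro I I' hII
      have h3 : Eco F I.1 = Eco F I'.1 := congrArg (fun x => x.1.1) hII
      apply Subtype.ext
      ext i
      rw [← single_mem_Eco (F := F), h3, single_mem_Eco]
    · rintro ⟨U, hU⟩
      obtain ⟨I, hI⟩ := (hfix U).1 hU
      refine ⟨⟨I, ?_⟩, ?_⟩
      · rw [← finrank_Eco F, ← hI]
        exact U.2
      · apply Subtype.ext
        apply Subtype.ext
        exact hI.symm
  rw [h2, Nat.card_eq_fintype_card, Fintype.card_finset_len, Fintype.card_fin]

/-- the number of representatives modulo `p` -/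
theorem card_reps_mod {ℓ p j : ℕ} [Fact ℓ.Prime] [hp : Fact p.Prime] (h : p ∣ ℓ - 1) (hj0 : 1 ≤ j)
    (hj : j ≤ n) {X : Finset (Matrix (Fin n) (Fin n) ℤ)} (hX : IsReps (Dbl n ℓ j) X) :
    X.card ≡ n.choose j [MOD p] := by
  rw [card_reps hj0 hj hX]
  have := card_sub (n := n) h (n - j)
  rwa [Nat.choose_symm hj] at this

end Pool.Agent.T2h62.CG
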