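import Pool.Agent.T2h62.CG.Bas

/-!
# A cocycle becomes a coboundary at a deeper level
-/

set_option autoImplicit false

open Matrix Pool.Agent.Helper460_CSP

noncomputable section

namespace Pool.Agent.T2h62.CG

theorem rgH_eq_one_of_cgr {n M : ℕ} {η : SpecialLinearGroup (Fin n) ℤ} (h : Cgr (M : ℤ) η) :
    rgH n (ZMod M) η = 1 := by
  apply Units.ext
  rw [← rgH_apply, rg_val (isUnit_coe _ η)]
  ext i j
  have h1 := h i j
  rw [← ZMod.intCast_zmod_eq_zero_iff_dvd] at h1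
  rw [Matrix.map_apply, Units.val_one]
  have h2 : ((mt η i j : ℤ) : ZMod M) = (((1 : Matrix (Fin n) (Fin n) ℤ) i j : ℤ) : ZMod M) := by
    rw [← sub_eq_zero, ← Int.cast_sub]
    exact h1
  rw [show (η.1 i j : ℤ) = mt η i j from rfl, h2, Matrix.one_apply, Matrix.one_apply]
  split_ifs <;> simp

theorem cgr_of_rgH {n M : ℕ} {η : SpecialLinearGroup (Fin n) ℤ} (h : rgH n (ZMod M) η = 1) :
    Cgr (M : ℤ) η := by
  intro i j
  have h1 := congrArg (fun x : GL (Fin n) (ZMod M) => x.1 i j) h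
  simp only [← rgH_apply] at h1
  rw [rg_val (isUnit_coe _ η), Matrix.map_apply, Units.val_one] at h1
  rw [← ZMod.intCast_zmod_eq_zero_iff_dvd, Int.cast_sub]
  rw [show (mt η i j : ℤ) = η.1 i j from rfl, h1, Matrix.one_apply, Matrix.one_apply]
  split_ifs <;> simp

variable {W : Type*} [AddCommGroup W]

/-- a `GL_n(ℤ/M)`-indexed cocycle vanishes on a deeper congruence subgroup, by the theorem of
Bass–Lazard–Serre and Mennicke -/
theorem kap_zero {m M e : ℕ} (hM : M ≠ 0) (he : e ≠ 0) (hW : ∀ w : W, e • w = 0)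
    (κ : SpecialLinearGroup (Fin (m + 3)) ℤ → GL (Fin (m + 3)) (ZMod M) → W)
    (hκ : ∀ γ δ x, κ (γ * δ) x = κ γ (rgH (m + 3) (ZMod M) δ * x) + κ δ x)
    (η : SpecialLinearGroup (Fin (m + 3)) ℤ) (hη : rgH (m + 3) (ZMod (M * e)) η = 1) :
    ∀ x, κ η x = 0 := by
  have h1 : ∀ x, κ 1 x = 0 := by
    intro x
    have := hκ 1 1 x
    rw [map_one, one_mul, one_mul] at this
    simpa using this
  let K : Subgroup (SpecialLinearGroup (Fin (m + 3)) ℤ) :=
    { carrier := {η | rgH (m + 3) (ZMod M) η = 1 ∧ ∀ x, κ η x = 0}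
      mul_mem' := by
        rintro a b ⟨ha, ha'⟩ ⟨hb, hb'⟩
        refine ⟨by rw [map_mul, ha, hb, one_mul], fun x => ?_⟩
        rw [hκ, ha', hb', add_zero]
      one_mem' := ⟨map_one _, h1⟩
      inv_mem' := by
        rintro a ⟨ha, ha'⟩
        refine ⟨by rw [map_inv, ha, inv_one], fun x => ?_⟩
        have := hκ a a⁻¹ x
        rw [mul_inv_cancel, h1, ha', zero_add] at this
        exact this.symm }
  have hK : K.Normal := by
    refine ⟨?_⟩
    rintro a ⟨ha, ha'⟩ g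
    refine ⟨by rw [map_mul, map_mul, ha, mul_one, map_inv, mul_inv_cancel], fun x => ?_⟩
    have h2 := hκ g g⁻¹ x
    rw [mul_inv_cancel, h1] at h2
    rw [hκ, hκ, ha', add_zero, ha, one_mul, ← h2]
  have hE : El (Fin (m + 3)) ((M * e : ℕ) : ℤ) ≤ K := by
    apply El_le
    intro i j hij
    have e1 : rgH (m + 3) (ZMod M) (tv i j hij (M : ℤ)) = 1 := by
      apply rgH_eq_one_of_cgr
      intro a b
      show (M : ℤ) ∣ transvection i j (M : ℤ) a b - (1 : Matrix (Fin (m + 3)) (Fin (m + 3)) ℤ) a b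
      rw [transvection, Matrix.add_apply, add_sub_cancel_left, Matrix.single_apply]
      split_ifs
      · exact dvd_refl _
      · exact dvd_zero _
    have e2 : ∀ (k : ℕ) x, κ (tv i j hij (M : ℤ) ^ k) x = k • κ (tv i j hij (M : ℤ)) x := by
      intro k x
      induction k with
      | zero => rw [pow_zero, h1, zero_smul]
      | succ k ih => rw [pow_succ, hκ, e1, one_mul, ih, add_smul, one_smul]
    have e3 : tv i j hij ((M * e : ℕ) : ℤ) = tv i j hij (M : ℤ) ^ e := by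
      rw [Nat.cast_mul, tv_mul_zpow, zpow_natCast]
    refine ⟨?_, fun x => ?_⟩
    · rw [e3, map_pow, e1, one_pow]
    · rw [e3, e2, hW]
  have hne : ((M * e : ℕ) : ℤ) ≠ 0 := by
    exact_mod_cast Nat.mul_ne_zero hM he
  exact (hE (bls hne m η (cgr_of_rgH hη))).2

/-- the pullback of a function to a deeper level -/
def pb (R : Type*) [CommRing R] [Module R W] (n : ℕ) {M M' : ℕ} (h : M ∣ M') :
    Fn n M W →ₗ[R] Fn n M' W where
  toFun φ b x := φ b (rd n h x)
  map_add' _ _ := rfl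
  map_smul' _ _ := rfl

theorem pb_apply (R : Type*) [CommRing R] [Module R W] {n : ℕ} {M M' : ℕ} (h : M ∣ M')
    (φ : Fn n M W) (b : GL (Fin n) ℚ) (x : GL (Fin n) (ZMod M')) :
    pb R n h φ b x = φ b (rd n h x) := rfl

theorem pb_inj (R : Type*) [CommRing R] [Module R W] {n : ℕ} (hn : n ≠ 0) {M M' : ℕ} [NeZero M]
    [NeZero M'] (h : M ∣ M') : Function.Injective (pb (W := W) R n h) := by
  intro φ ψ he
  funext b x
  obtain ⟨x', rfl⟩ := rd_surj h hn x
  exact congrFun (congrFun he b) x'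

theorem pb_aut0 (R : Type*) [CommRing R] [Module R W] {n : ℕ} {M M' : ℕ} (h : M ∣ M')
    {φ : Fn n M W} (hφ : Aut0 φ) : Aut0 (pb R n h φ) := by
  intro γ b c
  rw [pb_apply, pb_apply, hφ γ, map_mul, rgH_apply, rgH_apply, rd_rgH]

/-- **Vanishing at a deeper level.** -/
theorem exists_u (R : Type*) [CommRing R] [Module R W] {n M e : ℕ} (hn : 3 ≤ n) (hM : M ≠ 0)
    (he : e ≠ 0) (hW : ∀ w : W, e • w = 0) (z : GL (Fin n) ℚ → Fn n M W) (hz : ∀ g, Aut0 (z g))
    (hc : ∀ g h, z (g * h) = z g + lt g (z h)) :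
    ∃ u : Fn n (M * e) W, Aut0 u ∧ ∀ g, pb R n (Dvd.intro e rfl) (z g) = lt g u - u := by
  obtain ⟨m, rfl⟩ := Nat.exists_eq_add_of_le' hn
  have hMe : M * e ≠ 0 := Nat.mul_ne_zero hM he
  have : NeZero M := ⟨hM⟩
  have : NeZero (M * e) := ⟨hMe⟩
  have hd : M ∣ M * e := Dvd.intro e rfl
  have hm3 : m + 3 ≠ 0 := by omega
  let κ : SpecialLinearGroup (Fin (m + 3)) ℤ → GL (Fin (m + 3)) (ZMod M) → W :=
    fun γ x => z (rgH _ ℚ γ) (rgH _ ℚ γ) x
  have hκ : ∀ γ δ x, κ (γ * δ) x = κ γ (rgH (m + 3) (ZMod M) δ * x) + κ δ x := by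
    intro γ δ x
    show z (rgH _ ℚ (γ * δ)) (rgH _ ℚ (γ * δ)) x = _
    rw [map_mul, hc, Pi.add_apply, Pi.add_apply, lt, inv_mul_cancel_left]
    congr 1
    exact hz _ δ _ _
  have hκ0 := kap_zero hM he hW κ hκ
  -- base points
  obtain ⟨d, hd'⟩ : ∃ d : (ZMod (M * e))ˣ → GL (Fin (m + 3)) (ZMod (M * e)),
      ∀ a, Matrix.GeneralLinearGroup.det (d a) = a :=
    ⟨fun a => (det_surj hm3 a).choose, fun a => (det_surj hm3 a).choose_spec⟩
  have hG : ∀ x : GL (Fin (m + 3)) (ZMod (M * e)), ∃ γ : SpecialLinearGroup (Fin (m + 3)) ℤ,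
      x = rgH _ _ γ * d (Matrix.GeneralLinearGroup.det x) := fun x =>
    exists_sl _ _ (hd' _)
  choose G hG using hG
  let w : GL (Fin (m + 3)) (ZMod (M * e)) → W := fun x =>
    - κ (G x) (rd _ hd (d (Matrix.GeneralLinearGroup.det x)))
  have hw : ∀ (γ : SpecialLinearGroup (Fin (m + 3)) ℤ) x,
      w (rgH _ _ γ * x) = w x - κ γ (rd _ hd x) := by
    intro γ x
    have hdet : Matrix.GeneralLinearGroup.det (rgH _ _ γ * x) =
        Matrix.GeneralLinearGroup.det x := by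
      rw [map_mul, det_rgH, one_mul]
    set y := d (Matrix.GeneralLinearGroup.det x) with hy
    have e1 : w (rgH _ _ γ * x) = - κ (G (rgH _ _ γ * x)) (rd _ hd y) := by
      show - κ _ (rd _ hd (d (Matrix.GeneralLinearGroup.det (rgH _ _ γ * x)))) = _
      rw [hdet]
    have e2 : w x = - κ (G x) (rd _ hd y) := rfl
    have e3 : rgH _ _ (G (rgH _ _ γ * x)) * y = rgH _ _ γ * x := by
      have := hG (rgH _ _ γ * x)
      rw [hdet] at this
      exact this.symm
    have e4 : rgH _ _ (G x) * y = x := (hG x).symm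
    have e5 : rgH (m + 3) (ZMod (M * e)) ((γ * G x)⁻¹ * G (rgH _ _ γ * x)) = 1 := by
      rw [map_mul, map_inv, map_mul]
      have h1 : rgH (m + 3) (ZMod (M * e)) (G (rgH _ _ γ * x)) =
          rgH _ _ γ * rgH _ _ (G x) := by
        have : rgH (m + 3) (ZMod (M * e)) (G (rgH _ _ γ * x)) * y =
            rgH _ _ γ * rgH _ _ (G x) * y := by
          rw [e3, mul_assoc, e4]
        exact mul_right_cancel this
      rw [h1, inv_mul_cancel]
    have e6 := hκ (γ * G x) ((γ * G x)⁻¹ * G (rgH _ _ γ * x)) (rd _ hd y)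
    rw [mul_inv_cancel_left, hκ0 _ e5, add_zero] at e6
    have e7 : rgH (m + 3) (ZMod M) ((γ * G x)⁻¹ * G (rgH _ _ γ * x)) = 1 := by
      have := congrArg (rd _ hd) e5
      rwa [rd_rgH, map_one] at this
    rw [e7, one_mul, hκ] at e6
    have e8 : rgH (m + 3) (ZMod M) (G x) * rd _ hd y = rd _ hd x := by
      rw [← rd_rgH hd, ← map_mul, e4]
    rw [e1, e2, e6, e8]
    abel
  refine ⟨fun b x => w x - z b b (rd _ hd x), ?_, ?_⟩
  · intro γ b x
    show w x - z (b * rg ℚ γ.1) (b * rg ℚ γ.1) (rd _ hd x) =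
      w (rg _ γ.1 * x) - z b b (rd _ hd (rg _ γ.1 * x))
    rw [hc, Pi.add_apply, Pi.add_apply, lt, inv_mul_cancel_left, hz b γ, rgH_apply, rgH_apply,
      rgH_apply, hw, map_mul, rd_rgH]
    show w x - (_ + κ γ (rd _ hd x)) = _
    abel
  · intro g
    funext b x
    rw [pb_apply, Pi.sub_apply, Pi.sub_apply, lt]
    have h1 := hc g (g⁻¹ * b)
    rw [mul_inv_cancel_left] at h1
    have h2 := congrFun (congrFun h1 b) (rd _ hd x)
    rw [Pi.add_apply, Pi.add_apply, lt] at h2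
    rw [h2]
    abel

end Pool.Agent.T2h62.CG
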