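import Mathlib

/-!
# The cohomology of the locally symmetric spaces of `GL_n` over `ℚ` in degrees `0` and `1`:
definitions

`π₀(GL_n(ℝ)) × GL_n(𝔸_f)` is the quotient of `GL_n(ℚ) × GL_n(ℤ^)` by `SL_n(ℤ)`, acting by
`(b, c) ↦ (b γ, γ⁻¹ c)`. So the `W`-valued functions on `π₀(GL_n(ℝ)) × GL_n(𝔸_f) / K(M)` are the
functions `φ` on `GL_n(ℚ) × GL_n(ℤ/M)` with `φ (b γ, c) = φ (b, γ c)` for `γ ∈ SL_n(ℤ)`.
-/

set_option autoImplicit false

open Matrix

noncomputable section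

namespace Pool.Agent.T2h62.CG

/-- an integral matrix as an element of `GL_n(A)` (if it is invertible over `A`; otherwise `1`) -/
def rg {n : ℕ} (A : Type) [CommRing A] (β : Matrix (Fin n) (Fin n) ℤ) : GL (Fin n) A :=
  open Classical in if h : IsUnit (β.map (Int.cast : ℤ → A)) then h.unit else 1

/-- `W`-valued functions on `GL_n(ℚ) × GL_n(ℤ/M)` -/
abbrev Fn (n M : ℕ) (W : Type*) := GL (Fin n) ℚ → GL (Fin n) (ZMod M) → W

/-- the left translate of a function by `g ∈ GL_n(ℚ)` -/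
def lt {n M : ℕ} {W : Type*} (g : GL (Fin n) ℚ) (φ : Fn n M W) : Fn n M W :=
  fun b c => φ (g⁻¹ * b) c

/-- the functions on `π₀(GL_n(ℝ)) × GL_n(𝔸_f) / K(M)` -/
def Aut0 {n M : ℕ} {W : Type*} (φ : Fn n M W) : Prop :=
  ∀ (γ : SpecialLinearGroup (Fin n) ℤ) (b : GL (Fin n) ℚ) (c : GL (Fin n) (ZMod M)),
    φ (b * rg ℚ γ.1) c = φ b (rg (ZMod M) γ.1 * c)

/-- the functions `φ` on `π₀(GL_n(ℝ)) × GL_n(𝔸_f)` with `φ (x h) = h⁻¹ φ (x)` for all `h ∈ K_f`,
where `K_f` is the inverse image of `H` in `GL_n(ℤ^)` and acts on `W` through `H`; the local system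
on `Y(K_f)` attached to `W` has the cohomology of `GL_n(ℚ)` with values in these functions -/
def Aut {n M : ℕ} {R W : Type*} [CommRing R] [AddCommGroup W] [Module R W]
    {H : Subgroup (GL (Fin n) (ZMod M))} (ρW : Representation R H W) (φ : Fn n M W) : Prop :=
  Aut0 φ ∧ ∀ (h : H) (b : GL (Fin n) ℚ) (c : GL (Fin n) (ZMod M)), φ b (c * h) = ρW h⁻¹ (φ b c)

/-- the double coset of `diag(ℓ, …, ℓ, 1, …, 1)` (`j` entries `ℓ`) -/
def Dbl (n ℓ j : ℕ) : Set (Matrix (Fin n) (Fin n) ℤ) :=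
  {β | ∃ γ γ' : SpecialLinearGroup (Fin n) ℤ,
    β = γ.1 * Matrix.diagonal (fun i : Fin n => if (i : ℕ) < j then (ℓ : ℤ) else 1) * γ'.1}

/-- representatives of a set of matrices modulo right multiplication by `SL_n(ℤ)` -/
def IsReps {n : ℕ} (D : Set (Matrix (Fin n) (Fin n) ℤ)) (X : Finset (Matrix (Fin n) (Fin n) ℤ)) :
    Prop :=
  (∀ r ∈ X, r ∈ D) ∧
    ∀ β ∈ D, ∃! r, r ∈ X ∧ ∃ γ : SpecialLinearGroup (Fin n) ℤ, β = r * γ.1

/-- the Hecke operator of a finite set `X` of representatives: the sum of the right translates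
`φ (x β)`, `β ∈ X` (`β` placed at `ℓ`), rewritten by means of `(b, c) β = (b β, β⁻¹ c)` -/
def hk {n M : ℕ} (R : Type*) {W : Type*} [CommRing R] [AddCommGroup W] [Module R W]
    (X : Finset (Matrix (Fin n) (Fin n) ℤ)) : Module.End R (Fn n M W) where
  toFun φ b c := ∑ β ∈ X, φ (b * rg ℚ β) ((rg (ZMod M) β)⁻¹ * c)
  map_add' φ ψ := by
    funext b c
    simp only [Pi.add_apply, Finset.sum_add_distrib]
  map_smul' r φ := by
    funext b c
    simp only [Pi.smul_apply, Finset.smul_sum, RingHom.id_apply]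

/-- the names of the Hecke operators `T_{ℓ,j}`, `ℓ ∉ S` a prime and `1 ≤ j ≤ n` -/
abbrev Ix (n : ℕ) (S : Set ℕ) := {q : ℕ × ℕ // q.1.Prime ∧ q.1 ∉ S ∧ 1 ≤ q.2 ∧ q.2 ≤ n}

/-- the action of the (free) Hecke algebra on functions -/
def act {n M : ℕ} {S : Set ℕ} (R : Type*) {W : Type*} [CommRing R] [AddCommGroup W] [Module R W]
    (X : Ix n S → Finset (Matrix (Fin n) (Fin n) ℤ)) :
    FreeAlgebra R (Ix n S) →ₐ[R] Module.End R (Fn n M W) :=
  FreeAlgebra.lift R fun q => hk R (X q)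

/-- the eigensystem `lam` is in the support of `H⁰(Y(K_f), W)`: there is a class `φ` whose
annihilator in the Hecke algebra is contained in the kernel of `lam` -/
def Supp0 {n M : ℕ} {S : Set ℕ} {R W k : Type*} [CommRing R] [AddCommGroup W] [Module R W] [Field k]
    [Algebra R k] (X : Ix n S → Finset (Matrix (Fin n) (Fin n) ℤ))
    {H : Subgroup (GL (Fin n) (ZMod M))} (ρW : Representation R H W)
    (lam : FreeAlgebra R (Ix n S) →ₐ[R] k) : Prop :=
  ∃ φ : Fn n M W, Aut ρW φ ∧ (∀ g, lt g φ = φ) ∧ ∀ t, act R X t φ = 0 → lam t = 0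

/-- the eigensystem `lam` is in the support of `H¹(Y(K_f), W)`: there is a class, given by a
cocycle `z`, whose annihilator in the Hecke algebra is contained in the kernel of `lam` -/
def Supp1 {n M : ℕ} {S : Set ℕ} {R W k : Type*} [CommRing R] [AddCommGroup W] [Module R W] [Field k]
    [Algebra R k] (X : Ix n S → Finset (Matrix (Fin n) (Fin n) ℤ))
    {H : Subgroup (GL (Fin n) (ZMod M))} (ρW : Representation R H W)
    (lam : FreeAlgebra R (Ix n S) →ₐ[R] k) : Prop :=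
  ∃ z : GL (Fin n) ℚ → Fn n M W, (∀ g, Aut ρW (z g)) ∧ (∀ g h, z (g * h) = z g + lt g (z h)) ∧
    ∀ t, (∃ v : Fn n M W, Aut ρW v ∧ ∀ g, act R X t (z g) = lt g v - v) → lam t = 0

end Pool.Agent.T2h62.CG
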