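import Pool.Agent.T2h62.CG.Coc
import Pool.Agent.T2h62.CG.Alg

/-!
# The Hecke algebra acts on the classes in degrees `0` and `1` through the group ring of `(ℤ/M')ˣ`
-/

set_option autoImplicit false

open Matrix

noncomputable section

namespace Pool.Agent.T2h62.CG

/-- the class of `ℓ` in `(ℤ/M)ˣ` -/
def pu (M ℓ : ℕ) : (ZMod M)ˣ := if h : ℓ.Coprime M then ZMod.unitOfCoprime ℓ h else 1

theorem pu_val {M ℓ : ℕ} (h : ℓ.Coprime M) : ((pu M ℓ : (ZMod M)ˣ) : ZMod M) = ℓ := by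
  rw [pu, dif_pos h]
  exact ZMod.coe_unitOfCoprime ℓ h

variable {n M : ℕ} {S : Set ℕ} {W : Type*} [AddCommGroup W]

/-- the expected action of the Hecke algebra -/
def theta (M : ℕ) (R : Type*) [CommRing R] (X : Ix n S → Finset (Matrix (Fin n) (Fin n) ℤ)) :
    FreeAlgebra R (Ix n S) →ₐ[R] MonoidAlgebra R (ZMod M)ˣ :=
  FreeAlgebra.lift R fun q => ((X q).card : R) • MonoidAlgebra.of R _ (pu M q.1.1 ^ q.1.2)

/-- functions of the determinant -/
def J (R : Type*) [CommRing R] [Module R W] (n M : ℕ) : ((ZMod M)ˣ → W) →ₗ[R] Fn n M W where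
  toFun z _ c := z (Matrix.GeneralLinearGroup.det c)
  map_add' _ _ := rfl
  map_smul' _ _ := rfl

theorem J_apply (R : Type*) [CommRing R] [Module R W] (z : (ZMod M)ˣ → W) (b : GL (Fin n) ℚ)
    (c : GL (Fin n) (ZMod M)) : J R n M z b c = z (Matrix.GeneralLinearGroup.det c) := rfl

/-- translations of functions on `(ℤ/M)ˣ` -/
def sg (R : Type*) [CommRing R] [Module R W] (M : ℕ) :
    (ZMod M)ˣ →* Module.End R ((ZMod M)ˣ → W) where
  toFun a :=
    { toFun := fun z y => z (a⁻¹ * y)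
      map_add' := fun _ _ => rfl
      map_smul' := fun _ _ => rfl }
  map_one' := by
    apply LinearMap.ext
    intro z
    funext y
    show z (1⁻¹ * y) = z y
    rw [inv_one, one_mul]
  map_mul' a b := by
    apply LinearMap.ext
    intro z
    funext y
    show z ((a * b)⁻¹ * y) = z (b⁻¹ * (a⁻¹ * y))
    rw [_root_.mul_inv_rev, mul_assoc]

theorem sg_apply (R : Type*) [CommRing R] [Module R W] (a : (ZMod M)ˣ) (z : (ZMod M)ˣ → W)
    (y : (ZMod M)ˣ) : sg R M a z y = z (a⁻¹ * y) := rfl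

theorem det_rg_Dbl {ℓ j : ℕ} (hj : j ≤ n) (hℓ : ℓ.Coprime M) {β : Matrix (Fin n) (Fin n) ℤ}
    (h : β ∈ Dbl n ℓ j) : Matrix.GeneralLinearGroup.det (rg (ZMod M) β) = pu M ℓ ^ j := by
  apply Units.ext
  show (rg (ZMod M) β).1.det = _
  rw [rg_val (Dbl_unitZ hj hℓ h), map_cast_det, Dbl_det hj h, Units.val_pow_eq_pow_val, pu_val hℓ]
  push_cast
  rfl

theorem hk_J (R : Type*) [CommRing R] [Module R W] {ℓ j : ℕ} (hj : j ≤ n) (hℓ : ℓ.Coprime M)
    {X : Finset (Matrix (Fin n) (Fin n) ℤ)} (hX : IsReps (Dbl n ℓ j) X) (z : (ZMod M)ˣ → W) :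
    hk R X (J R n M z) = J R n M (((X.card : R) • sg R M (pu M ℓ ^ j)) z) := by
  funext b c
  rw [hk_apply, J_apply, LinearMap.smul_apply, Pi.smul_apply, sg_apply]
  rw [Finset.sum_congr rfl (g := fun _ => z ((pu M ℓ ^ j)⁻¹ * Matrix.GeneralLinearGroup.det c))]
  · rw [Finset.sum_const, Nat.cast_smul_eq_nsmul]
  · intro β hβ
    rw [J_apply, map_mul, map_inv, det_rg_Dbl hj hℓ (hX.1 β hβ)]

theorem act_J (R : Type*) [CommRing R] [Module R W]
    (hS : ∀ q : Ix n S, q.1.1.Coprime M) (X : Ix n S → Finset (Matrix (Fin n) (Fin n) ℤ))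
    (hX : ∀ q, IsReps (Dbl n q.1.1 q.1.2) (X q)) (t : FreeAlgebra R (Ix n S))
    (z : (ZMod M)ˣ → W) :
    act R X t (J R n M z) = J R n M (MonoidAlgebra.lift R _ _ (sg R M) (theta M R X t) z) := by
  have h1 := lift_comm (R := R) (fun q : Ix n S => ((X q).card : R) • sg (W := W) R M
    (pu M q.1.1 ^ q.1.2)) (fun q => hk (n := n) (M := M) (W := W) R (X q)) (J R n M)
    (fun q v => (hk_J R q.2.2.2.2 (hS q) (hX q) v).symm) t z
  rw [act, ← h1]
  congr 2
  have h2 : FreeAlgebra.lift R (fun q : Ix n S => ((X q).card : R) • sg (W := W) R M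
      (pu M q.1.1 ^ q.1.2)) = (MonoidAlgebra.lift R _ _ (sg R M)).comp (theta M R X) := by
    apply FreeAlgebra.hom_ext
    funext q
    simp only [Function.comp_apply, FreeAlgebra.lift_ι_apply, AlgHom.comp_apply, theta, map_smul,
      MonoidAlgebra.of_apply, MonoidAlgebra.lift_single, one_smul]
  rw [h2]
  rfl

/-- invariant functions are functions of the determinant (strong approximation) -/
theorem exists_J (R : Type*) [CommRing R] [Module R W] [NeZero M] (hn : n ≠ 0) {φ : Fn n M W}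
    (h0 : Aut0 φ) (hφ : ∀ g, lt g φ = φ) : ∃ z, φ = J R n M z := by
  obtain ⟨d, hd⟩ : ∃ d : (ZMod M)ˣ → GL (Fin n) (ZMod M),
      ∀ a, Matrix.GeneralLinearGroup.det (d a) = a :=
    ⟨fun a => (det_surj hn a).choose, fun a => (det_surj hn a).choose_spec⟩
  have h1 : ∀ b c, φ b c = φ 1 c := by
    intro b c
    have := congrFun (congrFun (hφ b) b) c
    rw [lt, inv_mul_cancel] at this
    exact this.symm
  refine ⟨fun a => φ 1 (d a), ?_⟩
  funext b c
  rw [h1, J_apply]
  obtain ⟨γ, hγ⟩ := exists_sl (d (Matrix.GeneralLinearGroup.det c)) c (hd _)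
  have h2 := h0 γ 1 (d (Matrix.GeneralLinearGroup.det c))
  rw [h1] at h2
  rw [h2, rgH_apply, ← hγ]

theorem act_lt (R : Type*) [CommRing R] [Module R W]
    (X : Ix n S → Finset (Matrix (Fin n) (Fin n) ℤ)) (t : FreeAlgebra R (Ix n S))
    (g : GL (Fin n) ℚ) (φ : Fn n M W) : act R X t (lt g φ) = lt g (act R X t φ) := by
  let F : Fn n M W →ₗ[R] Fn n M W :=
    { toFun := lt g
      map_add' := fun _ _ => rfl
      map_smul' := fun _ _ => rfl }
  have h1 := lift_comm (R := R) (fun q : Ix n S => hk (n := n) (M := M) (W := W) R (X q))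
    (fun q => hk (n := n) (M := M) (W := W) R (X q)) F (fun q v => by
      funext b c
      show ∑ β ∈ X q, _ = ∑ β ∈ X q, _
      refine Finset.sum_congr rfl fun β _ => ?_
      show v (g⁻¹ * b * _) _ = v (g⁻¹ * (b * _)) _
      rw [mul_assoc]) t φ
  exact h1.symm

theorem act_pb (R : Type*) [CommRing R] [Module R W] {M' : ℕ} (hd : M ∣ M')
    (hS : ∀ q : Ix n S, q.1.1.Coprime M') (X : Ix n S → Finset (Matrix (Fin n) (Fin n) ℤ))
    (hX : ∀ q, IsReps (Dbl n q.1.1 q.1.2) (X q)) (t : FreeAlgebra R (Ix n S)) (φ : Fn n M W) :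
    act R X t (pb R n hd φ) = pb R n hd (act R X t φ) := by
  have h1 := lift_comm (R := R) (fun q : Ix n S => hk (n := n) (M := M) (W := W) R (X q))
    (fun q => hk (n := n) (M := M') (W := W) R (X q)) (pb R n hd) (fun q v => by
      funext b c
      show ∑ β ∈ X q, _ = ∑ β ∈ X q, _
      refine Finset.sum_congr rfl fun β hβ => ?_
      show v (b * _) _ = v (b * _) (rd n hd _)
      rw [map_mul, map_inv, rd_rg hd (Dbl_unitZ q.2.2.2.2 (hS q) ((hX q).1 β hβ))]) t φ
  exact h1.symm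

theorem act_aut0 (R : Type*) [CommRing R] [Module R W]
    (hS : ∀ q : Ix n S, q.1.1.Coprime M) (X : Ix n S → Finset (Matrix (Fin n) (Fin n) ℤ))
    (hX : ∀ q, IsReps (Dbl n q.1.1 q.1.2) (X q)) (t : FreeAlgebra R (Ix n S)) {φ : Fn n M W}
    (hφ : Aut0 φ) : Aut0 (act R X t φ) := by
  let U : Submodule R (Fn n M W) :=
    { carrier := {φ | Aut0 φ}
      add_mem' := fun {a b} ha hb γ x y => by
        rw [Pi.add_apply, Pi.add_apply, Pi.add_apply, Pi.add_apply, ha, hb]
      zero_mem' := fun γ x y => rfl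
      smul_mem' := fun r a ha γ x y => by
        rw [Pi.smul_apply, Pi.smul_apply, Pi.smul_apply, Pi.smul_apply, ha] }
  exact lift_mem (R := R) (fun q : Ix n S => hk (n := n) (M := M) (W := W) R (X q)) U
    (fun q v hv => hk_aut0 (hX q) (fun β hβ γ => Dbl_left hβ γ)
      (fun β hβ => Dbl_unitQ q.2.2.2.2 q.2.1 hβ) (fun β hβ => Dbl_unitZ q.2.2.2.2 (hS q) hβ) hv)
    t φ hφ

section
variable {R : Type*} [CommRing R] [Module R W] {H : Subgroup (GL (Fin n) (ZMod M))}

/-- the action of an element of the level subgroup -/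
def star {M' : ℕ} (hd : M ∣ M') (ρW : Representation R H W) (h : GL (Fin n) (ZMod M'))
    (hh : rd n hd h ∈ H) : Fn n M' W →ₗ[R] Fn n M' W where
  toFun φ b x := ρW ⟨rd n hd h, hh⟩ (φ b (x * h))
  map_add' φ ψ := by
    funext b x
    simp only [Pi.add_apply, map_add]
  map_smul' r φ := by
    funext b x
    simp only [Pi.smul_apply, map_smul, RingHom.id_apply]

theorem act_star {M' : ℕ} (hd : M ∣ M') (ρW : Representation R H W) (h : GL (Fin n) (ZMod M'))
    (hh : rd n hd h ∈ H) (X : Ix n S → Finset (Matrix (Fin n) (Fin n) ℤ))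
    (t : FreeAlgebra R (Ix n S)) (φ : Fn n M' W) :
    act R X t (star hd ρW h hh φ) = star hd ρW h hh (act R X t φ) := by
  have h1 := lift_comm (R := R) (fun q : Ix n S => hk (n := n) (M := M') (W := W) R (X q))
    (fun q => hk (n := n) (M := M') (W := W) R (X q)) (star hd ρW h hh) (fun q v => by
      funext b c
      show ρW _ (∑ β ∈ X q, _) = ∑ β ∈ X q, _
      rw [map_sum]
      refine Finset.sum_congr rfl fun β hβ => ?_
      show ρW _ (v _ (_ * (c * h))) = ρW _ (v _ (_ * c * h))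
      rw [mul_assoc]) t φ
  exact h1.symm

/-- **The action factors through `theta`, degree `1`.** -/
theorem ker1 {e : ℕ} (hn : 3 ≤ n) (hM : M ≠ 0) (he : e ≠ 0) (hW : ∀ w : W, e • w = 0)
    (hS : ∀ q : Ix n S, q.1.1.Coprime (M * e)) (X : Ix n S → Finset (Matrix (Fin n) (Fin n) ℤ))
    (hX : ∀ q, IsReps (Dbl n q.1.1 q.1.2) (X q)) (ρW : Representation R H W)
    (z : GL (Fin n) ℚ → Fn n M W) (hz : ∀ g, Aut ρW (z g))
    (hc : ∀ g h, z (g * h) = z g + lt g (z h)) (t : FreeAlgebra R (Ix n S))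
    (ht : theta (M * e) R X t = 0) :
    ∃ v : Fn n M W, Aut ρW v ∧ ∀ g, act R X t (z g) = lt g v - v := by
  have hn0 : n ≠ 0 := by omega
  have : NeZero M := ⟨hM⟩
  have : NeZero (M * e) := ⟨Nat.mul_ne_zero hM he⟩
  have hd : M ∣ M * e := Dvd.intro e rfl
  obtain ⟨u, hu0, hu⟩ := exists_u R hn hM he hW z (fun g => (hz g).1) hc
  -- invariance of `act t u`
  have hst : ∀ (h : GL (Fin n) (ZMod (M * e))) (hh : rd n hd h ∈ H),
      star hd ρW h hh (act R X t u) = act R X t u := by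
    intro h hh
    have e1 : ∀ g, star hd ρW h hh (pb R n hd (z g)) = pb R n hd (z g) := by
      intro g
      funext b x
      show ρW ⟨rd n hd h, hh⟩ (z g b (rd n hd (x * h))) = z g b (rd n hd x)
      have h2 := (hz g).2 ⟨rd n hd h, hh⟩ b (rd n hd x)
      rw [map_mul, h2, ← Module.End.mul_apply, ← map_mul, mul_inv_cancel, map_one]
      rfl
    have e2 : Aut0 (star hd ρW h hh u - u) := by
      intro γ b x
      show ρW _ (u (b * rg ℚ γ.1) (x * h)) - u (b * rg ℚ γ.1) x =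
        ρW _ (u b (_ * x * h)) - u b (_ * x)
      rw [hu0 γ, hu0 γ, mul_assoc]
    have e3 : ∀ g, lt g (star hd ρW h hh u - u) = star hd ρW h hh u - u := by
      intro g
      have h1 := e1 g
      rw [hu g, map_sub] at h1
      have h3 : lt g (star hd ρW h hh u - u) = star hd ρW h hh (lt g u) - lt g u := rfl
      rw [h3]
      rw [sub_eq_sub_iff_add_eq_add] at h1 ⊢
      rw [add_comm (star hd ρW h hh u), ← h1]
    obtain ⟨y, hy⟩ := exists_J R hn0 e2 e3
    have e4 : act R X t (star hd ρW h hh u - u) = 0 := by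
      rw [hy, act_J R hS X hX, ht, map_zero]
      rfl
    rw [map_sub, act_star, sub_eq_zero] at e4
    exact e4
  have hv0 := act_aut0 R hS X hX t hu0
  -- descent
  have hsurj := rd_surj (n := n) hd hn0
  choose s hs using hsurj
  let v : Fn n M W := fun b x => act R X t u b (s x)
  have hv : ∀ b x, act R X t u b x = v b (rd n hd x) := by
    intro b x
    have h1 : rd n hd ((s (rd n hd x))⁻¹ * x) = 1 := by
      rw [map_mul, map_inv, hs, inv_mul_cancel]
    have h2 := congrFun (congrFun (hst ((s (rd n hd x))⁻¹ * x) (by rw [h1]; exact H.one_mem)) b)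
      (s (rd n hd x))
    have h3 : star hd ρW ((s (rd n hd x))⁻¹ * x) (by rw [h1]; exact H.one_mem) (act R X t u) b
        (s (rd n hd x)) = act R X t u b x := by
      show ρW ⟨rd n hd ((s (rd n hd x))⁻¹ * x), _⟩ (act R X t u b
        (s (rd n hd x) * ((s (rd n hd x))⁻¹ * x))) = _
      rw [mul_inv_cancel_left]
      have h4 : (⟨rd n hd ((s (rd n hd x))⁻¹ * x), (by rw [h1]; exact H.one_mem)⟩ : H) = 1 :=
        Subtype.ext h1
      rw [h4, map_one]
      rfl
    rw [h3] at h2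
    exact h2
  refine ⟨v, ⟨?_, ?_⟩, ?_⟩
  · intro γ b c
    obtain ⟨x, rfl⟩ := rd_surj hd hn0 c
    rw [← hv, hv0 γ, hv, map_mul, rgH_apply, rgH_apply, rd_rgH]
  · intro h b c
    obtain ⟨x, rfl⟩ := rd_surj hd hn0 c
    obtain ⟨h', hh'⟩ := rd_surj hd hn0 h.1
    have h1 := congrFun (congrFun (hst h' (by rw [hh']; exact h.2)) b) x
    have h2 : ρW ⟨rd n hd h', by rw [hh']; exact h.2⟩ (act R X t u b (x * h')) =
      act R X t u b x := h1
    have h3 : (⟨rd n hd h', by rw [hh']; exact h.2⟩ : H) = h := Subtype.ext hh'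
    rw [h3] at h2
    rw [← hh', ← map_mul, ← hv, ← hv, ← h2, ← Module.End.mul_apply, ← map_mul, inv_mul_cancel,
      map_one]
    rfl
  · intro g
    apply pb_inj R hn0 hd
    rw [← act_pb R hd hS X hX, hu, map_sub, act_lt]
    funext b x
    rw [pb_apply]
    show act R X t u (g⁻¹ * b) x - act R X t u b x = v (g⁻¹ * b) (rd n hd x) - v b (rd n hd x)
    rw [hv, hv]

/-- **The action factors through `theta`, degree `0`.** -/
theorem ker0 {e : ℕ} (hn : n ≠ 0) (hM : M ≠ 0) (he : e ≠ 0)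
    (hS : ∀ q : Ix n S, q.1.1.Coprime (M * e)) (X : Ix n S → Finset (Matrix (Fin n) (Fin n) ℤ))
    (hX : ∀ q, IsReps (Dbl n q.1.1 q.1.2) (X q))
    (φ : Fn n M W) (hφ : Aut0 φ) (hc : ∀ g, lt g φ = φ) (t : FreeAlgebra R (Ix n S))
    (ht : theta (M * e) R X t = 0) : act R X t φ = 0 := by
  have : NeZero M := ⟨hM⟩
  have : NeZero (M * e) := ⟨Nat.mul_ne_zero hM he⟩
  have hd : M ∣ M * e := Dvd.intro e rfl
  apply pb_inj R hn hd
  rw [← act_pb R hd hS X hX, map_zero]
  obtain ⟨y, hy⟩ := exists_J R hn (pb_aut0 R hd hφ) (fun g => by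
    show pb R n hd (lt g φ) = _
    rw [hc])
  rw [hy, act_J R hS X hX, ht, map_zero]
  rfl

end

/-- **The eigensystems in degrees `0` and `1`.** -/
theorem eigen {R k : Type*} [CommRing R] [Module R W] [Field k] [IsAlgClosed k] [Algebra R k]
    {H : Subgroup (GL (Fin n) (ZMod M))} {e : ℕ} (hn : 3 ≤ n) (hM : M ≠ 0) (he : e ≠ 0)
    (hW : ∀ w : W, e • w = 0) (hS : ∀ q : Ix n S, q.1.1.Coprime (M * e))
    (X : Ix n S → Finset (Matrix (Fin n) (Fin n) ℤ))
    (hX : ∀ q, IsReps (Dbl n q.1.1 q.1.2) (X q)) (ρW : Representation R H W)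
    (lam : FreeAlgebra R (Ix n S) →ₐ[R] k) (hl : Supp0 X ρW lam ∨ Supp1 X ρW lam) :
    ∃ χ : DirichletCharacter k (M * e), ∀ q : Ix n S,
      lam (FreeAlgebra.ι R q) = ((X q).card : k) * χ (q.1.1 : ZMod (M * e)) ^ q.1.2 := by
  have : NeZero (M * e) := ⟨Nat.mul_ne_zero hM he⟩
  have hker : ∀ t, theta (M * e) R X t = 0 → lam t = 0 := by
    intro t ht
    rcases hl with ⟨φ, h1, h2, h3⟩ | ⟨z, h1, h2, h3⟩
    · exact h3 t (ker0 (by omega) hM he hS X hX φ h1.1 h2 t ht)
    · exact h3 t (ker1 hn hM he hW hS X hX ρW z h1 h2 t ht)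
  obtain ⟨ψ, hψ⟩ := exists_char (theta (M * e) R X) lam hker
  let χ₀ : (ZMod (M * e))ˣ →* kˣ := Units.liftRight
    ((ψ : MonoidAlgebra R (ZMod (M * e))ˣ →* k).comp (MonoidAlgebra.of R _))
    (fun a => ⟨ψ (MonoidAlgebra.of R _ a), ψ (MonoidAlgebra.of R _ a⁻¹), by
      rw [← map_mul, ← map_mul, mul_inv_cancel, map_one, map_one], by
      rw [← map_mul, ← map_mul, inv_mul_cancel, map_one, map_one]⟩) (fun a => rfl)
  refine ⟨MulChar.ofUnitHom χ₀, fun q => ?_⟩
  rw [← hψ, theta, FreeAlgebra.lift_ι_apply]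
  rw [← pu_val (hS q), MulChar.ofUnitHom_coe, map_pow, Nat.cast_smul_eq_nsmul, map_nsmul, map_pow,
    nsmul_eq_mul]
  rfl

end Pool.Agent.T2h62.CG
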