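import Pool.Agent.T2h62.CG.Att
import Pool.Agent.T2h62.CG.Ker
import Pool.Agent.T2h62.CG.Cnt2
import Pool.Agent.T2h62.CG.Gal

/-!
# The main theorem
-/

set_option autoImplicit false

open Polynomial NumberField

noncomputable section

namespace Pool.Agent.T2h62.CG

theorem main (n : ℕ) (hn : 3 ≤ n) (S : Set ℕ) (hS : S.Finite) (p : ℕ) (hp : p.Prime) (hpS : p ∈ S)
    (M : ℕ) (hM : M ≠ 0) (hMS : ∀ q : ℕ, q.Prime → q ∣ M → q ∈ S)
    (R W : Type*) [CommRing R] [AddCommGroup W] [Module R W] (a : ℕ) (hW : ∀ w : W, p ^ a • w = 0)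
    (H : Subgroup (GL (Fin n) (ZMod M))) (ρW : Representation R H W)
    (Y : Ix n S → Finset (Matrix (Fin n) (Fin n) ℤ)) (hY : ∀ q, IsReps (Dbl n q.1.1 q.1.2) (Y q))
    (k : Type*) [Field k] [IsAlgClosed k] [CharP k p] [Algebra R k]
    (lam : FreeAlgebra R (Ix n S) →ₐ[R] k) (hl : Supp0 Y ρW lam ∨ Supp1 Y ρW lam) :
    (∃ χ : DirichletCharacter k (M * p ^ a), ∀ q : Ix n S,
      lam (FreeAlgebra.ι R q) = ((Y q).card : k) * χ (q.1.1 : ZMod (M * p ^ a)) ^ q.1.2) ∧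
    ∀ (L : Type) [Field L] [NumberField L] [IsGalois ℚ L] (ρ : Gal(L/ℚ) →* GL (Fin n) k),
      Attached lam L ρ → ∃ v : Fin n → k, v ≠ 0 ∧ ∀ g, ∃ c : k, Matrix.mulVec (ρ g).1 v = c • v := by
  have hpf : Fact p.Prime := ⟨hp⟩
  have hcop : ∀ q : Ix n S, q.1.1.Coprime (M * p ^ a) := by
    intro q
    rw [Nat.Prime.coprime_iff_not_dvd q.2.1]
    intro h
    rcases q.2.1.dvd_mul.1 h with h | h
    · exact q.2.2.1 (hMS _ q.2.1 h)
    · have := (Nat.prime_dvd_prime_iff_eq q.2.1 hp).1 (q.2.1.dvd_of_dvd_pow h)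
      exact q.2.2.1 (this ▸ hpS)
  obtain ⟨χ, hχ⟩ := eigen hn hM (pow_ne_zero a hp.ne_zero) hW hcop Y hY ρW lam hl
  refine ⟨⟨χ, hχ⟩, ?_⟩
  intro L _ _ _ ρ hρ
  have hm : 1 < M * p ^ a * p := by
    have h1 : 0 < M * p ^ a := Nat.pos_of_ne_zero (Nat.mul_ne_zero hM (pow_ne_zero a hp.ne_zero))
    have h2 := hp.two_le
    nlinarith
  refine gal_red L (p := p) (by omega) hm hS ρ ?_
  have key : ∀ (ℓ : ℕ) [Fact ℓ.Prime], ℓ ∉ S → (ℓ : ZMod (M * p ^ a * p)) = 1 →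
      satake lam ℓ = (X - 1) ^ n := by
    intro ℓ hℓ hℓS h1
    have e1 : (ℓ : ZMod (M * p ^ a)) = 1 := by
      have := congrArg (ZMod.castHom (Dvd.intro p rfl) (ZMod (M * p ^ a))) h1
      rwa [map_natCast, map_one] at this
    have e2 : (ℓ : ZMod p) = 1 := by
      have := congrArg (ZMod.castHom (Dvd.intro_left (M * p ^ a) rfl) (ZMod p)) h1
      rwa [map_natCast, map_one] at this
    have e3 : p ∣ ℓ - 1 := by
      have h2 : ((1 : ℕ) : ZMod p) = (ℓ : ℕ) := by rw [e2, Nat.cast_one]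
      have h3 := (ZMod.natCast_eq_natCast_iff 1 ℓ p).1 h2
      exact (Nat.modEq_iff_dvd' hℓ.out.one_lt.le).1 h3
    have e4 : (ℓ : k) = 1 := by
      have := congrArg (ZMod.castHom (dvd_refl p) k) e2
      rwa [map_natCast, map_one] at this
    have e5 : ∀ j ∈ Finset.range (n + 1), ev lam ℓ j = (n.choose j : k) := by
      intro j hj
      unfold ev
      by_cases hj1 : 1 ≤ j
      · have hc : ℓ.Prime ∧ ℓ ∉ S ∧ 1 ≤ j ∧ j ≤ n :=
          ⟨hℓ.out, hℓS, hj1, Nat.lt_succ_iff.1 (Finset.mem_range.1 hj)⟩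
        rw [dif_pos hc, hχ]
        show ((_ : ℕ) : k) * χ (ℓ : ZMod (M * p ^ a)) ^ j = _
        rw [e1, map_one, one_pow, mul_one]
        have h4 := card_reps_mod e3 hj1 hc.2.2.2 (hY ⟨(ℓ, j), hc⟩)
        exact (CharP.natCast_eq_natCast' k p h4)
      · rw [dif_neg (fun hc => hj1 hc.2.2.1)]
        have : j = 0 := by omega
        rw [this, Nat.choose_zero_right, Nat.cast_one]
    rw [sub_eq_neg_add, add_pow]
    unfold satake
    refine Finset.sum_congr rfl fun j hj => ?_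
    rw [e5 j hj, e4, one_pow, mul_one]
    simp only [map_mul, map_pow, map_neg, map_one, map_natCast]
    ring
  intro ℓ _ φ g hS' h1 hF
  rcases hρ with h2 | h2
  · exact Or.inl ((h2 ℓ hS' φ g hF).trans (key ℓ hS' h1))
  · exact Or.inr ((h2 ℓ hS' φ g hF).trans (key ℓ hS' h1))

end Pool.Agent.T2h62.CG
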